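import Pool.Agent.H26.WS.Close
import Pool.Agent.H26.AR.Ldp

/-!
The shape of the polygons of large area.
-/

set_option autoImplicit false

open MeasureTheory Set Filter Topology Metric
open scoped ENNReal Pointwise

namespace Pool.Agent.H26.WS

open Pool.Agent.T6.H44 Pool.Agent.T6.H44.PG
open Pool.Agent.TH795.EP Pool.Agent.TH795.EP2 H981
open Pool.Agent.Y981.L2 (area ln Rate loops_finite)
open Pool.Agent.H26.WF (Kc V RR rho g pr)

/-- the polygon is close to a translate of `T` -/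
def Good (n : ℕ) (T : Set (ℝ × ℝ)) (δ : ℝ) (f : ZMod (2 * n) → ℤ × ℤ) : Prop :=
  ∃ w : ℝ × ℝ, hausdorffDist (convexHull ℝ (pts (n : ℝ) f)) ((fun x => x + w) '' T) < δ ∧
    volume.real (symmDiff (region (n : ℝ) f) ((fun x => x + w) '' T)) < δ

/-- `E` is optimal for `u` -/
def Opt (u E : ℝ) : Prop := 0 < E ∧ RR u = 2 * √(u * V E) - 2 * E

/-- the Wulff shape of area `u` -/
noncomputable def WT (u E : ℝ) : Set (ℝ × ℝ) := √(u / V E) • Kc E

theorem V_pos {E : ℝ} (hE : 0 < E) : 0 < V E := by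
  obtain ⟨-, hK, h0⟩ := WF.Kc_props hE
  unfold V Measure.real
  apply ENNReal.toReal_pos
  · exact (Measure.measure_pos_of_nonempty_interior volume ⟨0, h0⟩).ne'
  · exact hK.measure_lt_top.ne

theorem exists_opt {u : ℝ} (hu : 0 < u) (hu4 : u < 1 / 4) : ∃ E, Opt u E := by
  have hs0 : 0 < √u := Real.sqrt_pos.2 hu
  have hs1 : √u < 1 / 2 := by
    rw [Real.sqrt_lt' (by norm_num)]
    linarith
  obtain ⟨E, hE, h⟩ := WF.exists_max hs0 hs1
  refine ⟨E, hE, ?_⟩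
  rw [WF.RR_eq hu.le, h, Real.sqrt_mul hu.le]
  rfl

theorem lam_facts {u E : ℝ} (hu : 0 < u) (hE : 0 < E) : 0 < √(u / V E) ∧
    √(u / V E) ^ 2 * V E = u ∧ 2 * √(u / V E) * V E = 2 * √(u * V E) := by
  have hV := V_pos hE
  have h1 : 0 < u / V E := by positivity
  refine ⟨Real.sqrt_pos.2 h1, ?_, ?_⟩
  · rw [Real.sq_sqrt h1.le]
    field_simp
  · rw [mul_assoc]
    congr 1
    rw [eq_comm, Real.sqrt_eq_iff_mul_self_eq (by positivity) (by positivity)]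
    have : √(u / V E) * V E * (√(u / V E) * V E) = (√(u / V E)) ^ 2 * V E ^ 2 := by ring
    rw [this, Real.sq_sqrt h1.le]
    field_simp

theorem WT_props {u E : ℝ} (hu : 0 < u) (hE : 0 < E) : Convex ℝ (WT u E) ∧ IsCompact (WT u E) ∧
    (WT u E).Nonempty ∧ volume.real (WT u E) = u ∧ ∀ x ∈ WT u E, -x ∈ WT u E := by
  obtain ⟨hc, hK, h0⟩ := WF.Kc_props hE
  obtain ⟨-, -, -, hR, -, -⟩ := AR.kep Rate PG.rt_rate E hE
  rw [WF.KE_eq] at hR
  refine ⟨hc.smul _, hK.smul _, Set.Nonempty.smul_set ⟨0, interior_subset h0⟩, ?_, ?_⟩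
  · unfold WT
    rw [vol_smul]
    exact (lam_facts hu hE).2.1
  · rintro _ ⟨x, hx, rfl⟩
    refine ⟨-x, ?_, by simp⟩
    have h1 := (hR x hx).1
    exact (hR _ h1).2

/-- **bad polygons are rare** -/
theorem shape_abs {u E : ℝ} (hu : 0 < u) (hE : Opt u E) {δ : ℝ} (hδ : 0 < δ) :
    ∃ η : ℝ, 0 < η ∧ ∀ᶠ n : ℕ in atTop,
      ({f : ZMod (2 * n) → ℤ × ℤ | H981.IsLoop (2 * n) f ∧
        (u - η) * (n : ℝ) ^ 2 ≤ area (2 * n) f ∧ ¬Good n (WT u E) δ f}.ncard : ℝ) ≤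
      Real.exp (-(RR u + η) * n) * ln n := by
  obtain ⟨hE0, hopt⟩ := hE
  obtain ⟨l1, l2, l3⟩ := lam_facts hu hE0
  obtain ⟨hTv, hT, hTn, hTvol, -⟩ := WT_props hu hE0
  obtain ⟨δ1, hδ1, hreg⟩ := close_region hT hTn hδ
  obtain ⟨η, hη, hbad⟩ := bad_le hE0 l1 (show 0 < min δ δ1 from lt_min hδ hδ1)
  rw [l2, l3, ← hopt] at hbad
  refine ⟨min η δ1, lt_min hη hδ1, ?_⟩
  filter_upwards [hbad, eventually_ge_atTop 1] with n h1 hn1
  have hn : (0 : ℝ) < n := by exact_mod_cast hn1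
  have : NeZero (2 * n) := ⟨by omega⟩
  have hsub : {f : ZMod (2 * n) → ℤ × ℤ | H981.IsLoop (2 * n) f ∧
        (u - min η δ1) * (n : ℝ) ^ 2 ≤ area (2 * n) f ∧ ¬Good n (WT u E) δ f} ⊆
      {f : ZMod (2 * n) → ℤ × ℤ | H981.IsLoop (2 * n) f ∧
        (u - η) * (n : ℝ) ^ 2 ≤ area (2 * n) f ∧ Far n (√(u / V E) • Kc E) (min δ δ1) f} := by
    rintro f ⟨g1, g2, g3⟩
    refine ⟨g1, ?_, ?_⟩
    · refine le_trans ?_ g2
      apply mul_le_mul_of_nonneg_right _ (by positivity)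
      linarith [min_le_left η δ1]
    · intro w
      by_contra hcon
      push Not at hcon
      apply g3
      refine ⟨w, lt_of_lt_of_le hcon (min_le_left _ _), ?_⟩
      apply hreg w (region (n : ℝ) f) (convexHull ℝ (pts (n : ℝ) f)) (region_meas _ _)
        (region_sub hn g1.2.2) (hull_compact _ _) (lt_of_lt_of_le hcon (min_le_right _ _))
      rw [hTvol]
      have h2 : volume.real (region (n : ℝ) f) = (area (2 * n) f : ℝ) / (n : ℝ) ^ 2 := by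
        unfold Measure.real
        rw [region_vol hn g1.2.2, ENNReal.toReal_ofReal (by positivity)]
      rw [h2, le_div_iff₀ (by positivity)]
      refine le_trans ?_ g2
      apply mul_le_mul_of_nonneg_right _ (by positivity)
      linarith [min_le_right η δ1]
  have hfin : {f : ZMod (2 * n) → ℤ × ℤ | H981.IsLoop (2 * n) f ∧
        (u - η) * (n : ℝ) ^ 2 ≤ area (2 * n) f ∧
        Far n (√(u / V E) • Kc E) (min δ δ1) f}.Finite :=
    (loops_finite hn1).subset fun f hf => hf.1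
  have h2 := Set.ncard_le_ncard hsub hfin
  have h3 : (({f : ZMod (2 * n) → ℤ × ℤ | H981.IsLoop (2 * n) f ∧
        (u - min η δ1) * (n : ℝ) ^ 2 ≤ area (2 * n) f ∧ ¬Good n (WT u E) δ f}.ncard : ℕ) : ℝ) ≤
      (({f : ZMod (2 * n) → ℤ × ℤ | H981.IsLoop (2 * n) f ∧
        (u - η) * (n : ℝ) ^ 2 ≤ area (2 * n) f ∧
        Far n (√(u / V E) • Kc E) (min δ δ1) f}.ncard : ℕ) : ℝ) := by exact_mod_cast h2
  refine h3.trans (h1.trans ?_)
  apply mul_le_mul_of_nonneg_right _ (Nat.cast_nonneg _)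
  apply Real.exp_le_exp.2
  have := min_le_left η δ1
  nlinarith

theorem ln_pos' : ∀ᶠ n : ℕ in atTop, 0 < (ln n : ℝ) := by
  obtain ⟨K, -, h⟩ := Y981.L2.ln_le
  filter_upwards [eventually_ge_atTop 2] with n hn
  exact (h n hn).1

/-- **the conditional law** -/
theorem shape_cond {u E b : ℝ} (hu : 0 < u) (hu4 : u < 1 / 4) (hb : u < b) (hE : Opt u E)
    {S : ℕ → Set ℝ} (hS1 : ∀ n : ℕ, Ioo (u * (n : ℝ) ^ 2) (b * (n : ℝ) ^ 2) ⊆ S n)
    (hS2 : ∀ n : ℕ, S n ⊆ Ici (u * (n : ℝ) ^ 2)) {δ : ℝ} (hδ : 0 < δ) :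
    ∃ c : ℝ, 0 < c ∧ ∀ᶠ n : ℕ in atTop,
      0 < {f : ZMod (2 * n) → ℤ × ℤ | H981.IsLoop (2 * n) f ∧ (area (2 * n) f : ℝ) ∈ S n}.ncard ∧
      ({f : ZMod (2 * n) → ℤ × ℤ | H981.IsLoop (2 * n) f ∧ (area (2 * n) f : ℝ) ∈ S n ∧
        ¬Good n (WT u E) δ f}.ncard : ℝ) ≤ Real.exp (-(c * n)) *
      ({f : ZMod (2 * n) → ℤ × ℤ | H981.IsLoop (2 * n) f ∧
        (area (2 * n) f : ℝ) ∈ S n}.ncard : ℝ) := by
  obtain ⟨η, hη, habs⟩ := shape_abs hu hE hδ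
  refine ⟨η / 2, by linarith, ?_⟩
  filter_upwards [habs, WF.interval_low hu.le hu4 hb hS1 (show 0 < η / 2 by linarith),
    eventually_ge_atTop 1, ln_pos'] with n h1 h2 hn1 hln
  have hn : (0 : ℝ) < n := by exact_mod_cast hn1
  obtain ⟨X, hX⟩ : ∃ X : ℕ, X = {f : ZMod (2 * n) → ℤ × ℤ | H981.IsLoop (2 * n) f ∧
        (area (2 * n) f : ℝ) ∈ S n}.ncard := ⟨_, rfl⟩
  have hpr : pr n (S n) = (X : ℝ) / ln n := by
    rw [hX]
    rfl
  rw [← hX]
  rw [hpr, le_div_iff₀ hln] at h2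
  have hX0 : (0 : ℝ) < X := lt_of_lt_of_le (by positivity) h2
  refine ⟨by exact_mod_cast hX0, ?_⟩
  have hfin : {f : ZMod (2 * n) → ℤ × ℤ | H981.IsLoop (2 * n) f ∧
        (u - η) * (n : ℝ) ^ 2 ≤ area (2 * n) f ∧ ¬Good n (WT u E) δ f}.Finite :=
    (loops_finite hn1).subset fun f hf => hf.1
  have h3 := Set.ncard_le_ncard (s := {f : ZMod (2 * n) → ℤ × ℤ | H981.IsLoop (2 * n) f ∧
        (area (2 * n) f : ℝ) ∈ S n ∧ ¬Good n (WT u E) δ f}) (fun f hf => by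
      refine ⟨hf.1, ?_, hf.2.2⟩
      have h4 : u * (n : ℝ) ^ 2 ≤ (area (2 * n) f : ℝ) := hS2 n hf.2.1
      have h5 : 0 < η * (n : ℝ) ^ 2 := by positivity
      linarith) hfin
  have h4 : (({f : ZMod (2 * n) → ℤ × ℤ | H981.IsLoop (2 * n) f ∧
        (area (2 * n) f : ℝ) ∈ S n ∧ ¬Good n (WT u E) δ f}.ncard : ℕ) : ℝ) ≤
      (({f : ZMod (2 * n) → ℤ × ℤ | H981.IsLoop (2 * n) f ∧
        (u - η) * (n : ℝ) ^ 2 ≤ area (2 * n) f ∧ ¬Good n (WT u E) δ f}.ncard : ℕ) : ℝ) := by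
    exact_mod_cast h3
  refine h4.trans (h1.trans ?_)
  have h5 : Real.exp (-(RR u + η) * n) = Real.exp (-(η / 2 * n)) *
      Real.exp (-((RR u + η / 2) * n)) := by
    rw [← Real.exp_add]
    congr 1
    ring
  rw [h5, mul_assoc]
  exact mul_le_mul_of_nonneg_left h2 (Real.exp_pos _).le

/-- **the shape does not depend on the maximiser** -/
theorem opt_unique {u E F : ℝ} (hu : 0 < u) (hu4 : u < 1 / 4) (hE : Opt u E) (hF : Opt u F) :
    WT u E = WT u F := by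
  have key : ∀ E F : ℝ, Opt u E → Opt u F → WT u E ⊆ WT u F := by
    intro E F hE hF
    obtain ⟨-, hT, hTn, -, hTs⟩ := WT_props hu hE.1
    obtain ⟨hTv', hT', hTn', -, hTs'⟩ := WT_props hu hF.1
    apply unique_shape hT hTs hT' hTn' hTs' hTv'
    intro δ hδ
    have hS1 : ∀ n : ℕ, Ioo (u * (n : ℝ) ^ 2) ((u + 1) * (n : ℝ) ^ 2) ⊆ Ici (u * (n : ℝ) ^ 2) :=
      fun n x hx => hx.1.le
    obtain ⟨c, hc, h1⟩ := shape_cond hu hu4 (show u < u + 1 by linarith) hE hS1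
      (fun n => le_rfl) hδ
    obtain ⟨d, hd, h2⟩ := shape_cond hu hu4 (show u < u + 1 by linarith) hF hS1
      (fun n => le_rfl) hδ
    have h3 : ∀ a : ℝ, 0 < a → ∀ᶠ n : ℕ in atTop, Real.exp (-(a * n)) < 1 / 2 := by
      intro a ha
      have : Tendsto (fun n : ℕ => Real.exp (-(a * n))) atTop (𝓝 0) := by
        refine Real.tendsto_exp_neg_atTop_nhds_zero.comp ?_
        exact Tendsto.const_mul_atTop ha tendsto_natCast_atTop_atTop
      exact this.eventually_lt_const (by norm_num)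
    obtain ⟨n, ⟨g1, g2⟩, ⟨-, g4⟩, g5, g6, hn1⟩ := (h1.and (h2.and ((h3 c hc).and
      ((h3 d hd).and (eventually_ge_atTop 1))))).exists
    have : NeZero (2 * n) := ⟨by omega⟩
    obtain ⟨X, hX⟩ : ∃ X : Set (ZMod (2 * n) → ℤ × ℤ), X = {f | H981.IsLoop (2 * n) f ∧
        (area (2 * n) f : ℝ) ∈ Ici (u * (n : ℝ) ^ 2)} := ⟨_, rfl⟩
    obtain ⟨B1, hB1⟩ : ∃ B1 : Set (ZMod (2 * n) → ℤ × ℤ), B1 = {f | H981.IsLoop (2 * n) f ∧
        (area (2 * n) f : ℝ) ∈ Ici (u * (n : ℝ) ^ 2) ∧ ¬Good n (WT u E) δ f} := ⟨_, rfl⟩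
    obtain ⟨B2, hB2⟩ : ∃ B2 : Set (ZMod (2 * n) → ℤ × ℤ), B2 = {f | H981.IsLoop (2 * n) f ∧
        (area (2 * n) f : ℝ) ∈ Ici (u * (n : ℝ) ^ 2) ∧ ¬Good n (WT u F) δ f} := ⟨_, rfl⟩
    rw [← hX, ← hB1] at g2
    rw [← hX] at g1
    rw [← hX, ← hB2] at g4
    have hXf : (0 : ℝ) < X.ncard := by exact_mod_cast g1
    have hlt : ((B1 ∪ B2).ncard : ℝ) < X.ncard := by
      have h5 := Set.ncard_union_le B1 B2
      have h6 : ((B1 ∪ B2).ncard : ℝ) ≤ B1.ncard + B2.ncard := by exact_mod_cast h5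
      nlinarith
    have hlt' : (B1 ∪ B2).ncard < X.ncard := by exact_mod_cast hlt
    have hfin : (B1 ∪ B2).Finite := by
      refine (loops_finite hn1).subset ?_
      rintro f (hf | hf)
      · rw [hB1] at hf
        exact hf.1
      · rw [hB2] at hf
        exact hf.1
    obtain ⟨f, hfX, hfB⟩ := Set.exists_mem_notMem_of_ncard_lt_ncard hlt' hfin
    rw [hX] at hfX
    have hg1 : Good n (WT u E) δ f := by
      by_contra hcon
      exact hfB (Or.inl (by rw [hB1]; exact ⟨hfX.1, hfX.2, hcon⟩))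
    have hg2 : Good n (WT u F) δ f := by
      by_contra hcon
      exact hfB (Or.inr (by rw [hB2]; exact ⟨hfX.1, hfX.2, hcon⟩))
    obtain ⟨w, hw, -⟩ := hg1
    obtain ⟨w', hw', -⟩ := hg2
    exact ⟨convexHull ℝ (pts (n : ℝ) f), w, w', hull_compact _ _,
      ⟨_, subset_convexHull ℝ _ ⟨0, rfl⟩⟩, hw, hw'⟩
  exact Subset.antisymm (key E F hE hF) (key F E hF hE)

end Pool.Agent.H26.WS
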