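import Pool.Agent.H26.AR.Frm

/-!
Zonogons around a symmetric convex body of the plane.
-/

set_option autoImplicit false

open MeasureTheory Set
open scoped ENNReal Pointwise

namespace Pool.Agent.H26.WS

open Pool.Agent.T6.H44.AR (det Zn Refl Swp sup)
open Pool.Agent.H26.AR (Zn_compact Zn_convex det_Zn det_cont det_add det_smul det_comm_abs)

/-- a linear functional is a determinant -/
theorem func_det (f : StrongDual ℝ (ℝ × ℝ)) : ∃ v : ℝ × ℝ, ∀ x, f x = det v x := by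
  refine ⟨(f (0, 1), -f (1, 0)), ?_⟩
  intro x
  have h : x = x.1 • ((1, 0) : ℝ × ℝ) + x.2 • ((0, 1) : ℝ × ℝ) := by
    ext <;> simp
  conv_lhs => rw [h]
  rw [map_add, map_smul, map_smul, smul_eq_mul, smul_eq_mul]
  simp only [det]
  ring

theorem swp_refl {K : Set (ℝ × ℝ)} (hR : Refl K) (hS : Swp K) {x : ℝ × ℝ} (hx : x ∈ K) :
    (x.2, -x.1) ∈ K ∧ (-x.2, x.1) ∈ K := by
  have h1 := hS x hx
  exact ⟨(hR _ h1).2, (hR _ h1).1⟩

theorem sup_bdd {K : Set (ℝ × ℝ)} (hK : IsCompact K) (v : ℝ × ℝ) :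
    BddAbove ((fun h : ℝ × ℝ => h.1 * v.1 + h.2 * v.2) '' K) :=
  (hK.image (by fun_prop)).bddAbove

theorem le_sup {K : Set (ℝ × ℝ)} (hK : IsCompact K) (v : ℝ × ℝ) {h : ℝ × ℝ} (hh : h ∈ K) :
    h.1 * v.1 + h.2 * v.2 ≤ sup K v :=
  le_csSup (sup_bdd hK v) ⟨h, hh, rfl⟩

theorem det_le_sup {K : Set (ℝ × ℝ)} (hK : IsCompact K) (hR : Refl K) (hS : Swp K) (v : ℝ × ℝ)
    {x : ℝ × ℝ} (hx : x ∈ K) : det v x ≤ sup K v := by
  have h := le_sup hK v (swp_refl hR hS hx).1
  simp only [det] at h ⊢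
  linarith

theorem exists_sup {K : Set (ℝ × ℝ)} (hK : IsCompact K) (hne : K.Nonempty) (hR : Refl K)
    (hS : Swp K) (v : ℝ × ℝ) : ∃ x ∈ K, det v x = sup K v := by
  obtain ⟨h, hh, hmax⟩ := (hK.image (f := fun h : ℝ × ℝ => h.1 * v.1 + h.2 * v.2)
    (by fun_prop)).sSup_mem (hne.image _)
  refine ⟨(-h.2, h.1), (swp_refl hR hS hh).2, ?_⟩
  unfold sup
  rw [← hmax]
  simp only [det]
  ring

/-- **zonogons around a body** -/
theorem zk {K : Set (ℝ × ℝ)} (hc : Convex ℝ K) (hK : IsCompact K) (h0 : (0 : ℝ × ℝ) ∈ interior K)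
    (hR : Refl K) (hS : Swp K) {κ : ℝ} (hκ : 0 < κ) (hκ1 : κ < 1) :
    ∃ (N : ℕ) (y : Fin N → ℝ × ℝ), K ⊆ Zn y ∧ volume.real (Zn y) ≤ (1 + κ) * volume.real K ∧
      ∀ v, ∑ j, |det (y j) v| ≤ (1 + κ) * sup K v := by
  have h0' := interior_subset h0
  have hsym : ∀ h ∈ K, -h ∈ K := by
    intro h hh
    have h1 := (hR h hh).1
    exact (hR _ h1).2
  obtain ⟨ε, hε⟩ : ∃ ε, ε = κ / 8 := ⟨_, rfl⟩
  have hε0 : 0 < ε := by rw [hε]; linarith
  have hε1 : ε < 1 / 8 := by rw [hε]; linarith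
  obtain ⟨N, z, hz⟩ := WF.pz K hc hK h0 hsym ε hε0 (by linarith)
  obtain ⟨ρ, hρ⟩ : ∃ ρ, ρ = (1 + ε) / (1 - ε) := ⟨_, rfl⟩
  have h1ε : 0 < 1 - ε := by linarith
  have hρ0 : 0 < ρ := by rw [hρ]; positivity
  have hρ1 : ρ ≤ 1 + κ := by
    rw [hρ, div_le_iff₀ h1ε, show κ = 8 * ε by rw [hε]; ring]
    nlinarith
  have hρ2 : ρ ^ 2 ≤ 1 + κ := by
    rw [hρ, div_pow, div_le_iff₀ (by positivity), show κ = 8 * ε by rw [hε]; ring]
    nlinarith [mul_pos hε0 hε0, mul_pos (mul_pos hε0 hε0) hε0]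
  have hs0 : ∀ v, 0 ≤ sup K v := by
    intro v
    have := le_sup hK v h0'
    simpa using this
  obtain ⟨y, hy⟩ : ∃ y : Fin N → ℝ × ℝ, y = fun j => (1 / (1 - ε)) • ((z j).2, -(z j).1) :=
    ⟨_, rfl⟩
  have hyv : ∀ v, ∑ j, |det (y j) v| = (∑ j, |(z j).1 * v.1 + (z j).2 * v.2|) / (1 - ε) := by
    intro v
    rw [Finset.sum_div]
    apply Finset.sum_congr rfl
    intro j _
    have : det (y j) v = ((z j).1 * v.1 + (z j).2 * v.2) / (1 - ε) := by
      rw [hy]
      simp only [det, Prod.smul_mk, smul_eq_mul]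
      ring
    rw [this, abs_div, abs_of_pos h1ε]
  have hlow : ∀ v, sup K v ≤ ∑ j, |det (y j) v| := by
    intro v
    rw [hyv, le_div_iff₀ h1ε, mul_comm]
    exact (hz v).1
  have hup : ∀ v, ∑ j, |det (y j) v| ≤ ρ * sup K v := by
    intro v
    rw [hyv, hρ, div_mul_eq_mul_div]
    exact div_le_div_of_nonneg_right (hz v).2 h1ε.le
  have hZc := Zn_compact y
  refine ⟨N, y, ?_, ?_, ?_⟩
  · intro x hx
    by_contra hcon
    obtain ⟨f, u, hu1, hu2⟩ := geometric_hahn_banach_closed_point (Zn_convex y) hZc.isClosed hcon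
    obtain ⟨v, hv⟩ := func_det f
    obtain ⟨p, hp, hpv⟩ : ∃ p ∈ Zn y, det v p = ∑ j, |det v (y j)| := by
      have : (∑ j, |det v (y j)|) ∈ det v '' Zn y := by
        rw [det_Zn, mem_Icc]
        refine ⟨?_, le_rfl⟩
        have : 0 ≤ ∑ j, |det v (y j)| := by positivity
        linarith
      exact this
    have h1 := hu1 p hp
    rw [hv, hpv] at h1
    rw [hv] at hu2
    have h2 := det_le_sup hK hR hS v hx
    have h3 := hlow v
    simp only [det_comm_abs v] at h1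
    linarith
  · have hsub : Zn y ⊆ ρ • K := by
      intro x hx
      by_contra hcon
      have hρK : IsCompact (ρ • K) := hK.smul ρ
      obtain ⟨f, u, hu1, hu2⟩ := geometric_hahn_banach_closed_point (hc.smul ρ) hρK.isClosed hcon
      obtain ⟨v, hv⟩ := func_det f
      obtain ⟨k, hk, hkv⟩ := exists_sup hK ⟨0, h0'⟩ hR hS v
      have h1 := hu1 (ρ • k) (smul_mem_smul_set hk)
      rw [hv, det_smul, hkv] at h1
      rw [hv] at hu2
      have h2 : det v x ∈ Icc (-(∑ j, |det v (y j)|)) (∑ j, |det v (y j)|) := by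
        rw [← det_Zn]
        exact ⟨x, hx, rfl⟩
      have h3 := hup v
      have h4 := h2.2
      simp only [det_comm_abs v] at h4
      linarith
    have h1 : volume.real (Zn y) ≤ volume.real (ρ • K) :=
      measureReal_mono hsub (hK.smul ρ).measure_lt_top.ne
    refine h1.trans ?_
    have h2 : volume.real (ρ • K) = ρ ^ 2 * volume.real K := by
      unfold Measure.real
      rw [Measure.addHaar_smul]
      simp only [Module.finrank_prod, Module.finrank_self, ENNReal.toReal_mul]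
      rw [ENNReal.toReal_ofReal (abs_nonneg _), abs_of_pos (by positivity)]
    rw [h2]
    exact mul_le_mul_of_nonneg_right hρ2 measureReal_nonneg
  · intro v
    exact (hup v).trans (mul_le_mul_of_nonneg_right hρ1 (hs0 v))

/-- adding a zonogon to a body with given widths -/
theorem add_Zn_width {P : Set (ℝ × ℝ)} (hc : IsCompact P) (hv : Convex ℝ P) :
    ∀ {N : ℕ} (z : Fin N → ℝ × ℝ) (w : Fin N → ℝ), (∀ j, 0 ≤ w j) →
    (∀ j, ∀ x ∈ P, ∀ x' ∈ P, det (z j) (x - x') ≤ w j) →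
    volume (P + Zn z) ≤ volume P + ENNReal.ofReal (2 * (∑ j, w j) + 2 * AR.DS z)
  | 0, z, w, _, _ => by
    rw [AR.Zn_zero, add_singleton]
    simp
  | N + 1, z, w, h0, hw => by
    rw [AR.Zn_succ, ← add_assoc, AR.fib _ (hc.add (Zn_compact _)) (hv.add (Zn_convex _))]
    have ih := add_Zn_width hc hv (fun i => z (Fin.castSucc i)) (fun i => w (Fin.castSucc i))
      (fun i => h0 _) (fun i => hw _)
    obtain ⟨W, hW⟩ : ∃ W, W = ∑ j, |det (z (Fin.last N)) (z (Fin.castSucc j))| := ⟨_, rfl⟩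
    have hW0 : 0 ≤ W := by rw [hW]; positivity
    have h5 : volume (det (z (Fin.last N)) '' (P + Zn (fun i => z (Fin.castSucc i)))) ≤
        ENNReal.ofReal (w (Fin.last N) + 2 * W) := by
      refine (Real.volume_le_diam _).trans ?_
      apply Metric.ediam_le
      rintro _ ⟨_, ⟨x, hx, y, hy, rfl⟩, rfl⟩ _ ⟨_, ⟨x', hx', y', hy', rfl⟩, rfl⟩
      rw [edist_dist]
      apply ENNReal.ofReal_le_ofReal
      have h1 := hw (Fin.last N) x hx x' hx'
      have h1' := hw (Fin.last N) x' hx' x hx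
      have h2 : det (z (Fin.last N)) y ∈ Icc (-W) W := by
        rw [hW, ← det_Zn]
        exact ⟨y, hy, rfl⟩
      have h2' : det (z (Fin.last N)) y' ∈ Icc (-W) W := by
        rw [hW, ← det_Zn]
        exact ⟨y', hy', rfl⟩
      simp only at h2 h2' ⊢
      rw [Real.dist_eq, abs_le, det_add, det_add]
      have e : ∀ a b : ℝ × ℝ, det (z (Fin.last N)) (a - b) =
          det (z (Fin.last N)) a - det (z (Fin.last N)) b := by
        intro a b
        simp only [det, Prod.fst_sub, Prod.snd_sub]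
        ring
      rw [e] at h1 h1'
      exact ⟨by linarith [h2.1, h2.2, h2'.1, h2'.2], by linarith [h2.1, h2.2, h2'.1, h2'.2]⟩
    refine (add_le_add ih (mul_le_mul_right h5 2)).trans (le_of_eq ?_)
    rw [show (2 : ℝ≥0∞) = ENNReal.ofReal 2 by simp, ← ENNReal.ofReal_mul (by norm_num), add_assoc,
      ← ENNReal.ofReal_add]
    · congr 2
      rw [AR.DS_succ, Fin.sum_univ_castSucc, ← hW]
      ring
    · have := AR.DS_nonneg (fun i => z (Fin.castSucc i))
      have h6 : 0 ≤ ∑ i : Fin N, w (Fin.castSucc i) := Finset.sum_nonneg fun i _ => h0 _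
      positivity
    · have := h0 (Fin.last N)
      positivity

end Pool.Agent.H26.WS
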