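import Pool.Agent.H26.AR.Dual
import Pool.Graph.R_seed8.Y981.L2X.Low
import Pool.Graph.R_seed8.Y981.L2X.Leg

/-!
The supremum in the formula for the rate function is attained.
-/

set_option autoImplicit false

open MeasureTheory Set Filter Topology
open scoped Pointwise ENNReal

namespace Pool.Agent.H26.WF

open Pool.Agent.T6.H44
open Pool.Agent.Y981.L2 (Lam Rate psi mass)
open H981 (mu)

theorem Kc_sub {E : ℝ} :
    Kc E ⊆ Icc (-(mass E)) (mass E) ×ˢ Icc (-(mass E)) (mass E) := by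
  intro h hh
  have h0 : Lam h ≤ E := hh
  have h1 := Y981.L2X.Lam_ge h
  have h2 := Y981.L2X.Lam_ge (h.2, h.1)
  rw [Y981.L2X.Lam_sw] at h2
  rw [mem_prod, mem_Icc, mem_Icc, ← abs_le, ← abs_le]
  exact ⟨Y981.L2.le_mass (abs_nonneg _) (h1.trans h0),
    Y981.L2.le_mass (abs_nonneg _) (h2.trans h0)⟩

theorem g_le_mass {E : ℝ} (hE : 0 < E) : g E ≤ 2 * mass E := by
  have hm := Y981.L2.mass_pos hE
  obtain ⟨m, hmd⟩ : ∃ m, m = mass E := ⟨_, rfl⟩
  have hsub := Kc_sub (E := E)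
  rw [← hmd] at hm hsub ⊢
  have hv : volume (Icc (-m) m ×ˢ Icc (-m) m : Set (ℝ × ℝ)) = ENNReal.ofReal ((2 * m) ^ 2) := by
    rw [Measure.volume_eq_prod, Measure.prod_prod, Real.volume_Icc, ← ENNReal.ofReal_mul (by linarith)]
    congr 1
    ring
  unfold g
  rw [Real.sqrt_le_left (by linarith)]
  unfold V Measure.real
  refine ENNReal.toReal_le_of_le_ofReal (by positivity) ?_
  rw [← hv]
  exact measure_mono hsub

theorem g_small {ε : ℝ} (hε : 0 < ε) : ∀ᶠ E in 𝓝[>] (0 : ℝ), g E < ε := by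
  obtain ⟨K, hK, h⟩ := Y981.L2X.mass_le
  have hlim : Tendsto (fun e : ℝ => 2 * (K * Real.sqrt (e * Real.log (1 / e) ^ 2))) (𝓝[>] 0)
      (𝓝 (2 * (K * Real.sqrt 0))) := by
    apply Tendsto.const_mul
    apply Tendsto.const_mul
    refine (Real.continuous_sqrt.tendsto 0).comp ?_
    -- `e log² (1/e) → 0`
    have h1 : Tendsto (fun x : ℝ => Real.log x ^ 2 / x) atTop (𝓝 0) :=
      (Real.isLittleO_pow_log_id_atTop (n := 2)).tendsto_div_nhds_zero
    have h2 : Tendsto (fun e : ℝ => e⁻¹) (𝓝[>] 0) atTop := tendsto_inv_nhdsGT_zero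
    refine (h1.comp h2).congr' ?_
    filter_upwards [self_mem_nhdsWithin] with e he
    have he0 : (0 : ℝ) < e := he
    simp only [Function.comp, one_div]
    field_simp
  rw [Real.sqrt_zero, mul_zero, mul_zero] at hlim
  have h3 : ∀ᶠ e in 𝓝[>] (0 : ℝ), e ∈ Ioo 0 (Real.exp (-1)) := Ioo_mem_nhdsGT (Real.exp_pos _)
  filter_upwards [hlim.eventually_lt_const hε, h3] with e h4 h5
  have h6 := g_le_mass h5.1
  have h7 := h e h5.1 h5.2.le
  linarith

theorem g_cont : ContinuousOn g (Ioi 0) := by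
  have h := g_concave.continuousOn_interior
  rwa [interior_Ioi] at h

/-- **the supremum is attained** -/
theorem exists_max {r : ℝ} (h0 : 0 < r) (h1 : r < 1 / 2) :
    ∃ E : ℝ, 0 < E ∧ rho r = 2 * (r * g E) - 2 * E := by
  have hpos := rho_pos h0 h1.le
  obtain ⟨f, hf⟩ : ∃ f : ℝ → ℝ, f = fun E => 2 * (r * g E) - 2 * E := ⟨_, rfl⟩
  have hfc : ContinuousOn f (Ioi 0) := by
    rw [hf]
    exact (continuousOn_const.mul (continuousOn_const.mul g_cont)).sub
      (continuousOn_const.mul continuousOn_id)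
  -- small `E`
  have hs : ∀ᶠ E in 𝓝[>] (0 : ℝ), g E < rho r / 2 := g_small (by linarith)
  rw [eventually_nhdsWithin_iff, Metric.eventually_nhds_iff] at hs
  obtain ⟨a, ha, hsa⟩ := hs
  have hfa : ∀ E : ℝ, 0 < E → E < a → f E < rho r / 2 := by
    intro E hE hEa
    have h2 := hsa (y := E) (by rw [Real.dist_eq, sub_zero, abs_of_pos hE]; exact hEa) hE
    have h3 := g_nonneg E
    have h4 : 2 * (r * g E) ≤ g E := by nlinarith
    rw [hf]
    simp only
    linarith
  -- large `E`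
  obtain ⟨b, hb⟩ : ∃ b, b = 4 * r * Real.log mu / (2 * (1 - 2 * r)) := ⟨_, rfl⟩
  have hfb : ∀ E : ℝ, 0 < E → b < E → f E < rho r / 2 := by
    intro E hE hEb
    have h2 := g_le hE.le
    have h3 := mul_le_mul_of_nonneg_left h2 h0.le
    have h4 : 0 < 2 * (1 - 2 * r) := by linarith
    rw [hb, div_lt_iff₀ h4] at hEb
    rw [hf]
    simp only
    linarith
  obtain ⟨x, ⟨E1, hE1, rfl⟩, hx⟩ := exists_lt_of_lt_csSup (ne_im _)
    (show rho r / 2 < sSup ((fun E : ℝ => 2 * (r * g E) - 2 * E) '' Ioi 0) by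
      show rho r / 2 < rho r
      linarith)
  have hE1' : (0 : ℝ) < E1 := hE1
  have hf1 : rho r / 2 < f E1 := by rw [hf]; exact hx
  have hE1a : a ≤ E1 := by
    by_contra hcon
    push Not at hcon
    have := hfa E1 hE1' hcon
    linarith
  have hE1b : E1 ≤ b := by
    by_contra hcon
    push Not at hcon
    have := hfb E1 hE1' hcon
    linarith
  obtain ⟨E, hE, hmax⟩ := isCompact_Icc.exists_isMaxOn ⟨E1, hE1a, hE1b⟩
    (hfc.mono (fun y hy => lt_of_lt_of_le ha hy.1) : ContinuousOn f (Icc a b))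
  refine ⟨E, lt_of_lt_of_le ha hE.1, ?_⟩
  have hE0 : 0 < E := lt_of_lt_of_le ha hE.1
  have hfE : f E1 ≤ f E := hmax ⟨hE1a, hE1b⟩
  apply le_antisymm
  · apply rho_le
    intro F hF
    have h2 : f F ≤ f E := by
      rcases lt_or_ge F a with h3 | h3
      · have := hfa F hF h3
        linarith
      rcases lt_or_ge b F with h4 | h4
      · have := hfb F hF h4
        linarith
      exact hmax ⟨h3, h4⟩
    rw [hf] at h2
    exact h2
  · exact le_rho h0.le h1.le hE0

end Pool.Agent.H26.WF
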