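import Pool.Agent.H26.WS.Lim

/-!
Stability of Wulff's inequality, by compactness.
-/

set_option autoImplicit false

open MeasureTheory Set Filter Topology Metric TopologicalSpace
open scoped ENNReal Pointwise

namespace Pool.Agent.H26.WS

open Pool.Agent.T6.H44.AR (det Zn Refl Swp sup)

/-- selection of a convergent subsequence -/
theorem sel {Rad : ℝ} (C : ℕ → Set (ℝ × ℝ)) (hC : ∀ k, IsCompact (C k))
    (hn : ∀ k, (C k).Nonempty) (hb : ∀ k, C k ⊆ closedBall 0 Rad) :
    ∃ D : Set (ℝ × ℝ), IsCompact D ∧ D.Nonempty ∧ ∃ φ : ℕ → ℕ, StrictMono φ ∧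
      Tendsto (fun k => hausdorffDist (C (φ k)) D) atTop (𝓝 0) := by
  obtain ⟨B, hB⟩ : ∃ B : Set (ℝ × ℝ), B = closedBall 0 Rad := ⟨_, rfl⟩
  have hBc : IsCompact B := by rw [hB]; exact isCompact_closedBall _ _
  rw [← hB] at hb
  have : CompactSpace B := isCompact_iff_compactSpace.1 hBc
  let x : ℕ → NonemptyCompacts B := fun k =>
    ⟨⟨Subtype.val ⁻¹' C k, ((hC k).isClosed.preimage continuous_subtype_val).isCompact⟩, by
      obtain ⟨p, hp⟩ := hn k
      exact ⟨⟨p, hb k hp⟩, hp⟩⟩
  obtain ⟨a, φ, hφ, ha⟩ := CompactSpace.tendsto_subseq x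
  refine ⟨Subtype.val '' (a : Set B), a.isCompact.image continuous_subtype_val,
    a.nonempty.image _, φ, hφ, ?_⟩
  have h1 : Tendsto (fun k => dist (x (φ k)) a) atTop (𝓝 0) := by
    rw [← tendsto_iff_dist_tendsto_zero]
    exact ha
  refine h1.congr ?_
  intro k
  rw [NonemptyCompacts.dist_eq]
  have h2 : C (φ k) = Subtype.val '' ((x (φ k) : NonemptyCompacts B) : Set B) := by
    have : ((x (φ k) : NonemptyCompacts B) : Set B) = Subtype.val ⁻¹' C (φ k) := rfl
    rw [this, Subtype.image_preimage_coe, inter_eq_right.2 (hb _)]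
  rw [h2]
  exact (hausdorffDist_image isometry_subtype_coe).symm

theorem near {A B : Set (ℝ × ℝ)} (hA : IsCompact A) (hB : IsCompact B) (hBn : B.Nonempty)
    {x : ℝ × ℝ} (hx : x ∈ A) : ∃ y ∈ B, dist x y ≤ hausdorffDist A B := by
  obtain ⟨y, hy, h⟩ := hB.exists_infDist_eq_dist hBn x
  refine ⟨y, hy, ?_⟩
  rw [← h]
  exact infDist_le_hausdorffDist_of_mem hx
    (hausdorffEDist_ne_top_of_nonempty_of_bounded ⟨x, hx⟩ hBn hA.isBounded hB.isBounded)

theorem abs_det_le (v w : ℝ × ℝ) : |det v w| ≤ 2 * (‖v‖ * ‖w‖) := by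
  have h1 : |v.1| ≤ ‖v‖ := norm_fst_le v
  have h2 : |v.2| ≤ ‖v‖ := norm_snd_le v
  have h3 : |w.1| ≤ ‖w‖ := norm_fst_le w
  have h4 : |w.2| ≤ ‖w‖ := norm_snd_le w
  unfold det
  refine (abs_sub _ _).trans ?_
  rw [abs_mul, abs_mul]
  have h5 := mul_le_mul h1 h4 (abs_nonneg _) (norm_nonneg _)
  have h6 := mul_le_mul h2 h3 (abs_nonneg _) (norm_nonneg _)
  linarith

theorem det_sub (v x y : ℝ × ℝ) : det v (x - y) = det v x - det v y := by
  simp only [det, Prod.fst_sub, Prod.snd_sub]
  ring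

theorem Zn_smul {N : ℕ} (y : Fin N → ℝ × ℝ) (c : ℝ) : Zn (fun j => c • y j) = c • Zn y := by
  ext x
  constructor
  · rintro ⟨t, ht, rfl⟩
    refine ⟨∑ j, t j • y j, ⟨t, ht, rfl⟩, ?_⟩
    simp only [Finset.smul_sum]
    apply Finset.sum_congr rfl
    intro j _
    rw [smul_comm]
  · rintro ⟨_, ⟨t, ht, rfl⟩, rfl⟩
    refine ⟨t, ht, ?_⟩
    simp only [Finset.smul_sum]
    apply Finset.sum_congr rfl
    intro j _
    rw [smul_comm]

theorem vol_Zn_real {N : ℕ} (y : Fin N → ℝ × ℝ) : volume.real (Zn y) = 2 * AR.DS y := by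
  unfold Measure.real
  rw [AR.vol_Zn, ENNReal.toReal_ofReal]
  have := AR.DS_nonneg y
  positivity

theorem sum_swap {N : ℕ} (y : Fin N → ℝ × ℝ) (L : List (ℝ × ℝ)) :
    ∑ j, (L.map (fun l => |det (y j) l|)).sum = (L.map (fun l => ∑ j, |det (y j) l|)).sum := by
  induction L with
  | nil => simp
  | cons l L ih => simp only [List.map_cons, List.sum_cons, Finset.sum_add_distrib, ih]

theorem list_sum_le {α : Type} (L : List α) (f g : α → ℝ) (c : ℝ) (h : ∀ l, f l ≤ c * g l) :
    (L.map f).sum ≤ c * (L.map g).sum := by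
  induction L with
  | nil => simp
  | cons l L ih =>
    simp only [List.map_cons, List.sum_cons]
    have := h l
    linarith

/-- **stability of Wulff's inequality** -/
theorem gt {K : Set (ℝ × ℝ)} (hc : Convex ℝ K) (hK : IsCompact K) (h0 : (0 : ℝ × ℝ) ∈ interior K)
    (hR : Refl K) (hS : Swp K) {lam : ℝ} (hlam : 0 < lam) {δ : ℝ} (hδ : 0 < δ) (Rad : ℝ) :
    ∃ η : ℝ, 0 < η ∧ ∀ (L : List (ℝ × ℝ)) (C : Set (ℝ × ℝ)), Convex ℝ C → IsCompact C →
      C.Nonempty → C ⊆ closedBall 0 Rad → lam ^ 2 * volume.real K - η ≤ volume.real C →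
      (L.map (sup K)).sum ≤ 2 * lam * volume.real K + η →
      (∀ v, ∀ x ∈ C, ∀ x' ∈ C,
        2 * det v (x - x') ≤ (L.map (fun l => |det v l|)).sum + η * ‖v‖) →
      ∃ w, hausdorffDist C ((fun x => x + w) '' (lam • K)) < δ := by
  by_contra hcon
  push Not at hcon
  have hex : ∀ k : ℕ, ∃ (L : List (ℝ × ℝ)) (C : Set (ℝ × ℝ)), Convex ℝ C ∧ IsCompact C ∧
      C.Nonempty ∧ C ⊆ closedBall 0 Rad ∧ lam ^ 2 * volume.real K - 1 / ((k : ℝ) + 1) ≤
        volume.real C ∧
      (L.map (sup K)).sum ≤ 2 * lam * volume.real K + 1 / ((k : ℝ) + 1) ∧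
      (∀ v, ∀ x ∈ C, ∀ x' ∈ C,
        2 * det v (x - x') ≤ (L.map (fun l => |det v l|)).sum + 1 / ((k : ℝ) + 1) * ‖v‖) ∧
      ∀ w, δ ≤ hausdorffDist C ((fun x => x + w) '' (lam • K)) := by
    intro k
    obtain ⟨L, C, g1, g2, g3, g4, g5, g6, g7, g8⟩ := hcon (1 / ((k : ℝ) + 1)) (by positivity)
    exact ⟨L, C, g1, g2, g3, g4, g5, g6, g7, g8⟩
  choose L C hCv hCc hCn hCb hCvol hL hw hfar using hex
  obtain ⟨D, hD, hDn, φ, hφ, hlim⟩ := sel C hCc hCn hCb
  have hη : Tendsto (fun k : ℕ => 1 / ((φ k : ℝ) + 1)) atTop (𝓝 0) :=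
    tendsto_one_div_add_atTop_nhds_zero_nat.comp hφ.tendsto_atTop
  -- near points
  have hn1 : ∀ k, ∀ x ∈ D, ∃ y ∈ C (φ k), dist x y ≤ hausdorffDist (C (φ k)) D := by
    intro k x hx
    obtain ⟨y, hy, h⟩ := near hD (hCc (φ k)) (hCn (φ k)) hx
    exact ⟨y, hy, by rwa [hausdorffDist_comm] at h⟩
  have hn2 : ∀ k, ∀ x ∈ C (φ k), ∃ y ∈ D, dist x y ≤ hausdorffDist (C (φ k)) D := by
    intro k x hx
    exact near (hCc (φ k)) hD hDn hx
  -- the limit is convex
  have hDv : Convex ℝ D := by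
    intro x hx y hy a b ha hb hab
    have hcl : a • x + b • y ∈ closure D := by
      rw [mem_closure_iff_infDist_zero hDn]
      apply le_antisymm _ infDist_nonneg
      have h1 : Tendsto (fun k => 2 * hausdorffDist (C (φ k)) D) atTop (𝓝 (2 * 0)) :=
        hlim.const_mul 2
      rw [mul_zero] at h1
      refine ge_of_tendsto' h1 ?_
      intro k
      obtain ⟨x', hx', hxx⟩ := hn1 k x hx
      obtain ⟨y', hy', hyy⟩ := hn1 k y hy
      obtain ⟨q, hq, hqq⟩ := hn2 k _ (hCv (φ k) hx' hy' ha hb hab)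
      have h2 : dist (a • x + b • y) (a • x' + b • y') ≤ hausdorffDist (C (φ k)) D := by
        rw [dist_eq_norm] at hxx hyy ⊢
        have e : a • x + b • y - (a • x' + b • y') = a • (x - x') + b • (y - y') := by
          rw [smul_sub, smul_sub]
          abel
        rw [e]
        refine (norm_add_le _ _).trans ?_
        rw [norm_smul, norm_smul, Real.norm_of_nonneg ha, Real.norm_of_nonneg hb]
        have h3 := mul_le_mul_of_nonneg_left hxx ha
        have h4 := mul_le_mul_of_nonneg_left hyy hb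
        calc a * ‖x - x'‖ + b * ‖y - y'‖ ≤ a * hausdorffDist (C (φ k)) D +
            b * hausdorffDist (C (φ k)) D := add_le_add h3 h4
          _ = hausdorffDist (C (φ k)) D := by rw [← add_mul, hab, one_mul]
      calc infDist (a • x + b • y) D ≤ dist (a • x + b • y) q := infDist_le_dist_of_mem hq
        _ ≤ dist (a • x + b • y) (a • x' + b • y') + dist (a • x' + b • y') q :=
            dist_triangle _ _ _
        _ ≤ _ := by linarith
    rwa [hD.isClosed.closure_eq] at hcl
  -- the volume of the limit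
  have hDvol : lam ^ 2 * volume.real K ≤ volume.real D := by
    have h1 : Tendsto (fun r => volume (cthickening r D)) (𝓝 0) (𝓝 (volume D)) :=
      tendsto_measure_cthickening_of_isCompact hD
    have h2 : Tendsto (fun k => volume (cthickening (hausdorffDist (C (φ k)) D) D)) atTop
        (𝓝 (volume D)) := h1.comp hlim
    have h3 : Tendsto (fun k => (volume (cthickening (hausdorffDist (C (φ k)) D) D)).toReal) atTop
        (𝓝 (volume D).toReal) := (ENNReal.tendsto_toReal hD.measure_lt_top.ne).comp h2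
    have h4 : Tendsto (fun k => lam ^ 2 * volume.real K - 1 / ((φ k : ℝ) + 1)) atTop
        (𝓝 (lam ^ 2 * volume.real K - 0)) := hη.const_sub _
    rw [sub_zero] at h4
    refine le_of_tendsto_of_tendsto' h4 h3 ?_
    intro k
    refine (hCvol (φ k)).trans ?_
    unfold Measure.real
    apply ENNReal.toReal_mono
    · exact (hD.cthickening).measure_lt_top.ne
    · apply measure_mono
      intro x hx
      obtain ⟨y, hy, hxy⟩ := hn2 k x hx
      exact mem_cthickening_of_dist_le x y _ _ hy hxy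
  -- the sum with the body
  have hsum : ∀ κ : ℝ, 0 < κ → κ < 1 →
      volume.real (D + lam • K) ≤ volume.real D + 3 * (1 + κ) * (lam ^ 2 * volume.real K) := by
    intro κ hκ hκ1
    obtain ⟨N, y, hy1, hy2, hy3⟩ := zk hc hK h0 hR hS hκ hκ1
    have hmax : ∀ j, ∃ p ∈ D ×ˢ D, ∀ p' ∈ D ×ˢ D, det (y j) (p'.1 - p'.2) ≤
        det (y j) (p.1 - p.2) := by
      intro j
      obtain ⟨p, hp, hpm⟩ := (hD.prod hD).exists_isMaxOn (hDn.prod hDn)
        (f := fun p : (ℝ × ℝ) × (ℝ × ℝ) => det (y j) (p.1 - p.2))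
        (((AR.det_cont (y j)).comp (by fun_prop)).continuousOn)
      exact ⟨p, hp, fun p' hp' => hpm hp'⟩
    choose p hp hpm using hmax
    obtain ⟨w, hwd⟩ : ∃ w : Fin N → ℝ, w = fun j => det (y j) ((p j).1 - (p j).2) := ⟨_, rfl⟩
    have hw0 : ∀ j, 0 ≤ w j := by
      intro j
      have := hpm j ((p j).1, (p j).1) ⟨(hp j).1, (hp j).1⟩
      rw [hwd]
      simpa [det] using this
    obtain ⟨S, hSd⟩ : ∃ S, S = ∑ j, ‖y j‖ := ⟨_, rfl⟩
    have hwsum : 2 * ∑ j, w j ≤ (1 + κ) * (2 * lam * volume.real K) := by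
      have h1 : Tendsto (fun k : ℕ => (1 + κ) * (2 * lam * volume.real K + 1 / ((φ k : ℝ) + 1)) +
          (1 / ((φ k : ℝ) + 1) + 8 * hausdorffDist (C (φ k)) D) * S) atTop
          (𝓝 ((1 + κ) * (2 * lam * volume.real K + 0) + (0 + 8 * 0) * S)) :=
        ((hη.const_add _).const_mul _).add ((hη.add (hlim.const_mul 8)).mul_const S)
      simp only [mul_zero, add_zero, zero_mul] at h1
      refine ge_of_tendsto' h1 ?_
      intro k
      have h2 : ∀ j, 2 * w j ≤ ((L (φ k)).map (fun l => |det (y j) l|)).sum +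
          (1 / ((φ k : ℝ) + 1) + 8 * hausdorffDist (C (φ k)) D) * ‖y j‖ := by
        intro j
        obtain ⟨a, ha, haa⟩ := hn1 k (p j).1 (hp j).1
        obtain ⟨b, hb, hbb⟩ := hn1 k (p j).2 (hp j).2
        have h3 := hw (φ k) (y j) a ha b hb
        have h4 := abs_le.1 (abs_det_le (y j) ((p j).1 - a))
        have h5 := abs_le.1 (abs_det_le (y j) ((p j).2 - b))
        rw [dist_eq_norm] at haa hbb
        have h6 := mul_le_mul_of_nonneg_left haa (norm_nonneg (y j))
        have h7 := mul_le_mul_of_nonneg_left hbb (norm_nonneg (y j))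
        have h8 : w j = det (y j) (a - b) + det (y j) ((p j).1 - a) - det (y j) ((p j).2 - b) := by
          rw [hwd]
          simp only [det_sub]
          ring
        rw [h8]
        nlinarith [h4.1, h4.2, h5.1, h5.2]
      calc 2 * ∑ j, w j = ∑ j, 2 * w j := by rw [Finset.mul_sum]
        _ ≤ ∑ j, (((L (φ k)).map (fun l => |det (y j) l|)).sum +
          (1 / ((φ k : ℝ) + 1) + 8 * hausdorffDist (C (φ k)) D) * ‖y j‖) :=
            Finset.sum_le_sum fun j _ => h2 j
        _ = ((L (φ k)).map (fun l => ∑ j, |det (y j) l|)).sum +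
            (1 / ((φ k : ℝ) + 1) + 8 * hausdorffDist (C (φ k)) D) * S := by
            rw [Finset.sum_add_distrib, sum_swap, ← Finset.mul_sum, hSd]
        _ ≤ (1 + κ) * ((L (φ k)).map (sup K)).sum +
            (1 / ((φ k : ℝ) + 1) + 8 * hausdorffDist (C (φ k)) D) * S := by
            have := list_sum_le (L (φ k)) (fun l => ∑ j, |det (y j) l|) (sup K) (1 + κ) hy3
            linarith
        _ ≤ _ := by
            have := mul_le_mul_of_nonneg_left (hL (φ k)) (show 0 ≤ 1 + κ by linarith)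
            linarith
    -- the volume
    obtain ⟨z, hz⟩ : ∃ z : Fin N → ℝ × ℝ, z = fun j => lam • y j := ⟨_, rfl⟩
    have hsub : D + lam • K ⊆ D + Zn z := by
      rw [hz, Zn_smul]
      exact add_subset_add_left (smul_set_mono hy1)
    have h1 := add_Zn_width hD hDv z (fun j => lam * w j) (fun j => by have := hw0 j; positivity)
      (by
        intro j x hx x' hx'
        have h2 := hpm j (x, x') ⟨hx, hx'⟩
        have h3 : det (z j) (x - x') = lam * det (y j) (x - x') := by
          rw [hz]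
          simp only [det, Prod.smul_fst, Prod.smul_snd, smul_eq_mul]
          ring
        rw [h3, hwd]
        exact mul_le_mul_of_nonneg_left h2 hlam.le)
    have hZ : 2 * AR.DS z ≤ lam ^ 2 * ((1 + κ) * volume.real K) := by
      rw [← vol_Zn_real, hz, Zn_smul, vol_smul]
      exact mul_le_mul_of_nonneg_left hy2 (by positivity)
    have hDS := AR.DS_nonneg z
    have hW : 0 ≤ ∑ j, lam * w j := Finset.sum_nonneg fun j _ => by
      have := hw0 j
      positivity
    have h2 : volume.real (D + lam • K) ≤ volume.real D + (2 * (∑ j, lam * w j) + 2 * AR.DS z) := by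
      have h3 : volume (D + lam • K) ≤ ENNReal.ofReal (volume.real D +
          (2 * (∑ j, lam * w j) + 2 * AR.DS z)) := by
        rw [ENNReal.ofReal_add measureReal_nonneg (by positivity)]
        have h4 : ENNReal.ofReal (volume.real D) = volume D := by
          unfold Measure.real
          rw [ENNReal.ofReal_toReal hD.measure_lt_top.ne]
        rw [h4]
        exact (measure_mono hsub).trans h1
      have h4 : 0 ≤ volume.real D := measureReal_nonneg
      exact ENNReal.toReal_le_of_le_ofReal (by positivity) h3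
    rw [← Finset.mul_sum] at h2
    have h5 := mul_le_mul_of_nonneg_left hwsum hlam.le
    calc volume.real (D + lam • K) ≤ volume.real D + (2 * (lam * ∑ j, w j) + 2 * AR.DS z) := h2
      _ ≤ volume.real D + (lam * ((1 + κ) * (2 * lam * volume.real K)) +
          lam ^ 2 * ((1 + κ) * volume.real K)) := by linarith
      _ = _ := by ring
  obtain ⟨w, hw'⟩ := lim_body hc hK h0 hlam hDv hD hDn hDvol hsum
  obtain ⟨k, hk⟩ := ((tendsto_order.1 hlim).2 δ hδ).exists
  have := hfar (φ k) w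
  rw [← hw'] at this
  linarith

end Pool.Agent.H26.WS
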