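import Pool.Agent.H26.WS.Cntg
import Pool.Agent.H26.WS.GT
import Pool.Agent.H26.AR.Vol

/-!
Polygons of large area which are not close to the Wulff shape are rare.
-/

set_option autoImplicit false

open MeasureTheory Set Filter Topology Metric
open scoped ENNReal Pointwise

namespace Pool.Agent.H26.WS

open Pool.Agent.T6.H44 Pool.Agent.T6.H44.PG
open Pool.Agent.T6.H44.AR (det)
open Pool.Agent.TH795.EP Pool.Agent.TH795.EP2 H981
open Pool.Agent.Y981.L2 (area ln Rate)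
open Pool.Agent.H26.WF (Kc V)

/-- the polygon is not close to a translate of `T` -/
def Far (n : ℕ) (T : Set (ℝ × ℝ)) (δ : ℝ) (f : ZMod (2 * n) → ℤ × ℤ) : Prop :=
  ∀ w : ℝ × ℝ, δ ≤ hausdorffDist (convexHull ℝ (pts (n : ℝ) f)) ((fun x => x + w) '' T)

theorem hull_ball {n : ℕ} (hn : 0 < n) {V : List St} (hV : V.length = 2 * n - 1) :
    convexHull ℝ (pts (n : ℝ) (fun i : ZMod (2 * n) => path V i.val)) ⊆ closedBall 0 2 := by
  apply convexHull_min _ (convex_closedBall _ _)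
  rintro _ ⟨i, rfl⟩
  have hn0 : (0 : ℝ) < n := by exact_mod_cast hn
  have h1 := abs_add_abs_le (V.take i.val)
  have h2 : (V.take i.val).length ≤ 2 * n := by
    rw [List.length_take]
    have := min_le_right i.val V.length
    omega
  have h3 : |(path V i.val).1| + |(path V i.val).2| ≤ ((2 * n : ℕ) : ℤ) := by
    unfold path
    have : ((V.take i.val).length : ℤ) ≤ ((2 * n : ℕ) : ℤ) := by exact_mod_cast h2
    linarith
  have h4 : |((path V i.val).1 : ℝ)| + |((path V i.val).2 : ℝ)| ≤ 2 * n := by exact_mod_cast h3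
  rw [mem_closedBall_zero_iff, Prod.norm_def, Real.norm_eq_abs, Real.norm_eq_abs]
  simp only
  rw [abs_div, abs_div, abs_of_pos hn0]
  apply max_le
  · rw [div_le_iff₀ hn0]
    have := abs_nonneg ((path V i.val).2 : ℝ)
    linarith
  · rw [div_le_iff₀ hn0]
    have := abs_nonneg ((path V i.val).1 : ℝ)
    linarith

theorem sup_cost {E0 : ℝ} (hE0 : 0 < E0) {n : ℕ} (hn : 0 < n) (F : List (ℕ × (ℤ × ℤ)))
    (hF : ∀ e ∈ F, 1 ≤ e.1 ∧ |e.2.1| + |e.2.2| ≤ (e.1 : ℤ)) :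
    (((scl n F).map Prod.snd).map (AR.sup (Kc E0))).sum ≤
      AR.cost Rate (scl n F) + E0 * ((scl n F).map Prod.fst).sum := by
  obtain ⟨-, -, -, -, -, h⟩ := AR.kep Rate PG.rt_rate E0 hE0
  rw [WF.KE_eq] at h
  have h' : ∀ (t : ℝ) (v : ℝ × ℝ), 0 < t → |v.1| + |v.2| ≤ t →
      AR.sup (Kc E0) v ≤ t * (Rate (v.1 / t, v.2 / t) + E0) := h
  have hn0 : (0 : ℝ) < n := by exact_mod_cast hn
  unfold AR.cost scl
  induction F with
  | nil => simp
  | cons e F ih =>
    have ih' := ih (fun e' he' => hF e' (by simp [he']))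
    obtain ⟨g1, g2⟩ := hF e (by simp)
    have g1' : (0 : ℝ) < e.1 := by exact_mod_cast g1
    have g3 := h' ((e.1 : ℝ) / n) ((e.2.1 : ℝ) / n, (e.2.2 : ℝ) / n) (by positivity) (by
      simp only
      rw [abs_div, abs_div, abs_of_pos hn0, ← add_div]
      apply div_le_div_of_nonneg_right _ hn0.le
      exact_mod_cast g2)
    simp only [List.map_cons, List.sum_cons] at ih' g3 ⊢
    linarith

/-- **polygons of large area which are far from the Wulff shape are rare** -/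
theorem bad_le {E0 : ℝ} (hE0 : 0 < E0) {lam : ℝ} (hlam : 0 < lam) {δ : ℝ} (hδ : 0 < δ) :
    ∃ η : ℝ, 0 < η ∧ ∀ᶠ n : ℕ in atTop,
      ({f : ZMod (2 * n) → ℤ × ℤ | H981.IsLoop (2 * n) f ∧
        (lam ^ 2 * V E0 - η) * (n : ℝ) ^ 2 ≤ area (2 * n) f ∧
        Far n (lam • Kc E0) δ f}.ncard : ℝ) ≤
      Real.exp (-(2 * lam * V E0 - 2 * E0 + η) * n) * ln n := by
  obtain ⟨hc, hK, h0, hR, hS, -⟩ := AR.kep Rate PG.rt_rate E0 hE0
  rw [WF.KE_eq] at hc hK h0 hR hS
  obtain ⟨η0, hη0, hgt⟩ := gt (K := Kc E0) hc hK h0 hR hS hlam hδ 2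
  refine ⟨η0 / 2, by linarith, ?_⟩
  obtain ⟨N, hN⟩ := exists_nat_gt (16 / η0)
  have hN0 : (0 : ℝ) < N := lt_trans (by positivity) hN
  have hN0' : 0 < N := by exact_mod_cast hN0
  filter_upwards [count_gen hN0' (show 0 < η0 / 2 by linarith),
    tendsto_natCast_atTop_atTop.eventually_ge_atTop (8 / η0)] with n hcg hnη
  obtain ⟨hn2, hcg⟩ := hcg
  have hnpos : (0 : ℝ) < n := by exact_mod_cast (by omega : 0 < n)
  have : NeZero (2 * n) := ⟨by omega⟩
  obtain ⟨Bad, hBad⟩ : ∃ Bad : Set (ZMod (2 * n) → ℤ × ℤ), Bad = {f | H981.IsLoop (2 * n) f ∧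
        (lam ^ 2 * V E0 - η0 / 2) * (n : ℝ) ^ 2 ≤ area (2 * n) f ∧
        Far n (lam • Kc E0) δ f} := ⟨_, rfl⟩
  rw [← hBad]
  rcases Nat.eq_zero_or_pos Bad.ncard with h | h
  · rw [h, Nat.cast_zero]
    positivity
  have hBL : ∀ f ∈ Bad, H981.IsLoop (2 * n) f := by
    intro f hf
    rw [hBad] at hf
    exact hf.1
  obtain ⟨W, ms, g1, g2, g3, g4, g5, g6, g7⟩ := hcg Bad hBL h
  refine g7.trans ?_
  have hln : (0 : ℝ) ≤ ln n := Nat.cast_nonneg _
  apply mul_le_mul_of_nonneg_right _ hln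
  apply Real.exp_le_exp.2
  obtain ⟨f, hf⟩ : ∃ f : ZMod (2 * n) → ℤ × ℤ, f = fun i : ZMod (2 * n) => path W i.val := ⟨_, rfl⟩
  obtain ⟨F, hF⟩ : ∃ F : List (ℕ × (ℤ × ℤ)), F = clo ms W := ⟨_, rfl⟩
  rw [← hf] at g4
  have hfB := g4
  rw [hBad] at hfB
  obtain ⟨hloop, harea, hfar⟩ := hfB
  rw [← hF] at g5 g6 ⊢
  -- the width error
  have hs2 : 4 * (((2 * n / N + 1 : ℕ) : ℝ) / n) ≤ η0 := by
    have e1 : ((2 * n / N + 1 : ℕ) : ℝ) ≤ 2 * n / N + 1 := by
      push_cast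
      have : ((2 * n / N : ℕ) : ℝ) ≤ ((2 * n : ℕ) : ℝ) / N := Nat.cast_div_le
      push_cast at this
      linarith
    have e2 : 2 * (n : ℝ) / N ≤ η0 / 8 * n := by
      rw [div_le_iff₀ hN0]
      rw [div_lt_iff₀ hη0] at hN
      nlinarith
    have e3 : 1 ≤ η0 / 8 * n := by
      rw [div_le_iff₀ hη0] at hnη
      linarith
    rw [mul_div_assoc', div_le_iff₀ hnpos]
    linarith
  by_contra hcon
  push Not at hcon
  have hcost : AR.cost Rate (scl n F) < 2 * lam * V E0 - 2 * E0 + η0 := by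
    have : n * AR.cost Rate (scl n F) < n * (2 * lam * V E0 - 2 * E0 + η0) := by linarith
    exact lt_of_mul_lt_mul_left this hnpos.le
  have hsup := sup_cost hE0 (by omega : 0 < n) F g5
  have hfst : ((scl n F).map Prod.fst).sum = 2 := by
    rw [scl_fst, g6]
    push_cast
    field_simp
  rw [hfst] at hsup
  have hne : (convexHull ℝ (pts (n : ℝ) f)).Nonempty :=
    ⟨_, subset_convexHull ℝ _ ⟨0, rfl⟩⟩
  obtain ⟨w, hw⟩ := hgt ((scl n F).map Prod.snd) (convexHull ℝ (pts (n : ℝ) f))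
    (convex_convexHull ℝ _) (hull_compact _ _) hne (by rw [hf]; exact hull_ball (by omega) g3)
    (by
      have h1 := area_le_hull hnpos hloop.2.2
      have h2 : lam ^ 2 * V E0 - η0 / 2 ≤ (area (2 * n) f : ℝ) / (n : ℝ) ^ 2 := by
        rw [le_div_iff₀ (by positivity)]
        exact harea
      have h3 : volume.real (Kc E0) = V E0 := rfl
      rw [h3]
      linarith)
    (by
      have h3 : volume.real (Kc E0) = V E0 := rfl
      rw [h3]
      linarith)
    (by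
      intro v x hx x' hx'
      rw [hf] at hx hx'
      have h1 := hull_width (by omega : 0 < n) g1 g2 g3 v x hx x' hx'
      have h2 := mul_le_mul_of_nonneg_right hs2 (norm_nonneg v)
      rw [hF]
      unfold clo
      linarith)
  exact absurd hw (not_lt.2 (hfar w))

end Pool.Agent.H26.WS
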