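import Pool.Agent.H26.WS.Cond

/-!
The mean width of the polygons of large area.
-/

set_option autoImplicit false

open MeasureTheory Set Filter Topology Metric
open scoped ENNReal Pointwise

namespace Pool.Agent.H26.WS

open Pool.Agent.T6.H44 Pool.Agent.T6.H44.PG
open Pool.Agent.TH795.EP Pool.Agent.TH795.EP2 H981
open Pool.Agent.Y981.L2 (area ln Rate loops_finite)
open Pool.Agent.Y981.L2X (M)
open Pool.Agent.H26.WF (Kc V RR rho g pr)

/-- weighted means -/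
theorem wmean {ι : Type} (A : Finset ι) (ω φ : ι → ℝ) (bad : ι → Prop) {c ε B p : ℝ}
    (hω : ∀ i ∈ A, 0 ≤ ω i) (hZ : 0 < ∑ i ∈ A, ω i) (hε : 0 ≤ ε)
    (hgood : ∀ i ∈ A, ¬bad i → |φ i - c| ≤ ε) (hB0 : 0 ≤ B) (hB : ∀ i ∈ A, |φ i - c| ≤ B)
    (hbad : (∑ᶠ i ∈ {i | i ∈ A ∧ bad i}, ω i) ≤ p * ∑ i ∈ A, ω i) :
    |(∑ i ∈ A, ω i * φ i) / (∑ i ∈ A, ω i) - c| ≤ ε + B * p := by
  classical
  obtain ⟨Z, hZd⟩ : ∃ Z, Z = ∑ i ∈ A, ω i := ⟨_, rfl⟩
  rw [← hZd] at hZ hbad ⊢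
  have h1 : (∑ i ∈ A, ω i * φ i) / Z - c = (∑ i ∈ A, ω i * (φ i - c)) / Z := by
    have : ∑ i ∈ A, ω i * (φ i - c) = ∑ i ∈ A, ω i * φ i - Z * c := by
      rw [hZd, Finset.sum_mul, ← Finset.sum_sub_distrib]
      apply Finset.sum_congr rfl
      intro i _
      ring
    rw [this]
    field_simp
  have h2 : (∑ᶠ i ∈ {i | i ∈ A ∧ bad i}, ω i) = ∑ i ∈ A.filter bad, ω i := by
    have : {i | i ∈ A ∧ bad i} = ((A.filter bad : Finset ι) : Set ι) := by
      ext i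
      simp
    rw [this, finsum_mem_coe_finset]
  rw [h2] at hbad
  rw [h1, abs_div, abs_of_pos hZ, div_le_iff₀ hZ]
  calc |∑ i ∈ A, ω i * (φ i - c)| ≤ ∑ i ∈ A, |ω i * (φ i - c)| := Finset.abs_sum_le_sum_abs _ _
    _ ≤ ∑ i ∈ A, (ω i * ε + (if bad i then ω i else 0) * B) := by
        apply Finset.sum_le_sum
        intro i hi
        have hw := hω i hi
        rw [abs_mul, abs_of_nonneg hw]
        split_ifs with hb
        · have := mul_le_mul_of_nonneg_left (hB i hi) hw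
          have : 0 ≤ ω i * ε := mul_nonneg hw hε
          linarith
        · have := mul_le_mul_of_nonneg_left (hgood i hi hb) hw
          linarith
    _ = Z * ε + (∑ i ∈ A.filter bad, ω i) * B := by
        rw [Finset.sum_add_distrib, ← Finset.sum_mul, ← Finset.sum_mul, ← hZd, Finset.sum_filter]
    _ ≤ Z * ε + (p * Z) * B := by
        have := mul_le_mul_of_nonneg_right hbad hB0
        linarith
    _ = (ε + B * p) * Z := by ring

/-- the width -/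
noncomputable def wd (n : ℕ) (f : ZMod (2 * n) → ℤ × ℤ) : ℝ :=
  ⨆ p : ZMod (2 * n) × ZMod (2 * n), (((f p.1).1 : ℝ) - ((f p.2).1 : ℝ))

theorem wd_attained {n : ℕ} (hn : 1 ≤ n) (f : ZMod (2 * n) → ℤ × ℤ) :
    (∀ i j, ((f i).1 : ℝ) - ((f j).1 : ℝ) ≤ wd n f) ∧
    ∃ i j, wd n f = ((f i).1 : ℝ) - ((f j).1 : ℝ) := by
  have : NeZero (2 * n) := ⟨by omega⟩
  constructor
  · intro i j
    exact le_ciSup (f := fun p : ZMod (2 * n) × ZMod (2 * n) =>
      (((f p.1).1 : ℝ) - ((f p.2).1 : ℝ))) (Set.finite_range _).bddAbove (i, j)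
  · obtain ⟨p, hp⟩ := exists_eq_ciSup_of_finite (f := fun p : ZMod (2 * n) × ZMod (2 * n) =>
      (((f p.1).1 : ℝ) - ((f p.2).1 : ℝ)))
    exact ⟨p.1, p.2, hp.symm⟩

theorem exists_M {E : ℝ} (hE : 0 < E) : ∃ h ∈ Kc E, h.1 = M E (1, 0) ∧ ∀ k ∈ Kc E, k.1 ≤ h.1 := by
  obtain ⟨-, hK, h0⟩ := WF.Kc_props hE
  obtain ⟨h, hh, hmax⟩ := hK.exists_isMaxOn ⟨0, interior_subset h0⟩
    (f := fun h : ℝ × ℝ => h.1) continuous_fst.continuousOn
  refine ⟨h, hh, ?_, fun k hk => hmax hk⟩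
  apply le_antisymm
  · have := Y981.L2X.le_M (1, 0) (show Y981.L2.Lam h ≤ E from hh)
    simpa using this
  · apply csSup_le (Y981.L2X.M_nonempty hE.le _)
    rintro r ⟨k, hk, rfl⟩
    have : k.1 ≤ h.1 := hmax (show k ∈ Kc E from hk)
    simpa using this

theorem wd_nonneg {n : ℕ} (hn : 1 ≤ n) (f : ZMod (2 * n) → ℤ × ℤ) : 0 ≤ wd n f := by
  have := (wd_attained hn f).1 0 0
  simpa using this

theorem fst_hull {m : ℕ} {r : ℝ} {f : ZMod m → ℤ × ℤ} {b : ℝ}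
    (h : ∀ i, ((f i).1 : ℝ) / r ≤ b) : ∀ x ∈ convexHull ℝ (pts r f), x.1 ≤ b := by
  intro x hx
  have hc : Convex ℝ {x : ℝ × ℝ | x.1 ≤ b} :=
    convex_halfSpace_le (LinearMap.fst ℝ ℝ ℝ).isLinear b
  exact convexHull_min (by rintro _ ⟨i, rfl⟩; exact h i) hc hx

theorem fst_hull' {m : ℕ} {r : ℝ} {f : ZMod m → ℤ × ℤ} {b : ℝ}
    (h : ∀ i, b ≤ ((f i).1 : ℝ) / r) : ∀ x ∈ convexHull ℝ (pts r f), b ≤ x.1 := by
  intro x hx
  have hc : Convex ℝ {x : ℝ × ℝ | b ≤ x.1} :=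
    convex_halfSpace_ge (LinearMap.fst ℝ ℝ ℝ).isLinear b
  exact convexHull_min (by rintro _ ⟨i, rfl⟩; exact h i) hc hx

/-- the width of a good polygon -/
theorem good_width {n : ℕ} (hn1 : 1 ≤ n) {u E δ : ℝ} (hu : 0 < u) (hE : 0 < E)
    {f : ZMod (2 * n) → ℤ × ℤ} (hf : Good n (WT u E) δ f) :
    |wd n f / n - 2 * √(u / V E) * M E (1, 0)| ≤ 2 * δ := by
  have : NeZero (2 * n) := ⟨by omega⟩
  have hn : (0 : ℝ) < n := by exact_mod_cast hn1
  obtain ⟨w, hw, -⟩ := hf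
  obtain ⟨-, hT, hTn, -, hTs⟩ := WT_props hu hE
  obtain ⟨l1, -, -⟩ := lam_facts hu hE
  obtain ⟨h, hh, hhM, hmax⟩ := exists_M hE
  obtain ⟨lam, hlam⟩ : ∃ lam, lam = √(u / V E) := ⟨_, rfl⟩
  rw [← hlam] at l1 ⊢
  have hC := hull_compact (n : ℝ) f
  have hCn : (convexHull ℝ (pts (n : ℝ) f)).Nonempty := ⟨_, subset_convexHull ℝ _ ⟨0, rfl⟩⟩
  have hTw := trans_compact hT w
  obtain ⟨w1, i0, j0, w2⟩ := wd_attained hn1 f
  rw [← hhM]
  -- points of `T`
  have hb : ∀ t ∈ WT u E, t.1 ≤ lam * h.1 := by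
    rintro _ ⟨k, hk, rfl⟩
    rw [hlam]
    exact mul_le_mul_of_nonneg_left (hmax k hk) (Real.sqrt_nonneg _)
  have hb' : ∀ t ∈ WT u E, -(lam * h.1) ≤ t.1 := by
    intro t ht
    have := hb (-t) (hTs t ht)
    rw [Prod.fst_neg] at this
    linarith
  rw [abs_le]
  constructor
  · -- lower bound
    have t1 : lam • h ∈ WT u E := by
      rw [hlam]
      exact smul_mem_smul_set hh
    obtain ⟨c, hc, hcd⟩ := near hTw hC hCn ⟨lam • h, t1, rfl⟩
    obtain ⟨c', hc', hcd'⟩ := near hTw hC hCn ⟨-(lam • h), hTs _ t1, rfl⟩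
    rw [hausdorffDist_comm] at hcd hcd'
    have e1 : |(lam • h + w).1 - c.1| ≤ dist (lam • h + w) c := by
      rw [← Real.dist_eq]
      exact le_max_left _ _
    have e2 : |(-(lam • h) + w).1 - c'.1| ≤ dist (-(lam • h) + w) c' := by
      rw [← Real.dist_eq]
      exact le_max_left _ _
    simp only [Prod.fst_add, Prod.smul_fst, smul_eq_mul, Prod.fst_neg] at e1 e2
    simp only at hcd hcd'
    have f1 := abs_le.1 e1
    have f2 := abs_le.1 e2
    -- the coordinates of the hull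
    have f3 : c.1 ≤ c'.1 + wd n f / n := by
      apply fst_hull _ c hc
      intro i
      have : ((f i).1 : ℝ) / n - wd n f / n ≤ c'.1 := by
        apply fst_hull' _ c' hc'
        intro j
        rw [← sub_div]
        apply div_le_div_of_nonneg_right _ hn.le
        have := w1 i j
        linarith
      linarith
    linarith [f1.1, f1.2, f2.1, f2.2]
  · -- upper bound
    have p1 : (((f i0).1 : ℝ) / n, ((f i0).2 : ℝ) / n) ∈ convexHull ℝ (pts (n : ℝ) f) :=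
      subset_convexHull ℝ _ ⟨i0, rfl⟩
    have p2 : (((f j0).1 : ℝ) / n, ((f j0).2 : ℝ) / n) ∈ convexHull ℝ (pts (n : ℝ) f) :=
      subset_convexHull ℝ _ ⟨j0, rfl⟩
    obtain ⟨_, ⟨t, ht, rfl⟩, hd⟩ := near hC hTw (hTn.image _) p1
    obtain ⟨_, ⟨t', ht', rfl⟩, hd'⟩ := near hC hTw (hTn.image _) p2
    have e1 : |((f i0).1 : ℝ) / n - (t + w).1| ≤ dist (((f i0).1 : ℝ) / n, ((f i0).2 : ℝ) / n) (t + w) := by
      rw [← Real.dist_eq]
      exact le_max_left _ _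
    have e2 : |((f j0).1 : ℝ) / n - (t' + w).1| ≤ dist (((f j0).1 : ℝ) / n, ((f j0).2 : ℝ) / n) (t' + w) := by
      rw [← Real.dist_eq]
      exact le_max_left _ _
    simp only [Prod.fst_add] at e1 e2
    simp only at hd hd'
    have f1 := abs_le.1 e1
    have f2 := abs_le.1 e2
    have g1 := hb t ht
    have g2 := hb' t' ht'
    rw [w2, sub_div]
    linarith [f1.1, f1.2, f2.1, f2.2]

theorem wd_le {n : ℕ} (hn : 2 ≤ n) {f : ZMod (2 * n) → ℤ × ℤ} (hf : H981.IsLoop (2 * n) f) :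
    wd n f / n ≤ 4 := by
  have : NeZero (2 * n) := ⟨by omega⟩
  have hn0 : (0 : ℝ) < n := by exact_mod_cast (by omega : 0 < n)
  obtain ⟨w, h1, h2, h3⟩ := Y981.L2.loop_word (by omega) hf 0
  have e : (fun i : ZMod (2 * n) => path w i.val) = f := by
    funext i
    rw [h3 _ (ZMod.val_lt i), ZMod.natCast_zmod_val, zero_add, hf.1]
    simp
  have hb := hull_ball (by omega : 0 < n) h2
  rw [e] at hb
  obtain ⟨-, i, j, hw⟩ := wd_attained (by omega : 1 ≤ n) f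
  have g1 := hb (subset_convexHull ℝ _ ⟨i, rfl⟩)
  have g2 := hb (subset_convexHull ℝ _ ⟨j, rfl⟩)
  rw [mem_closedBall_zero_iff] at g1 g2
  have g3 := abs_le.1 ((norm_fst_le _).trans g1)
  have g4 := abs_le.1 ((norm_fst_le _).trans g2)
  simp only at g3 g4
  rw [hw, sub_div]
  linarith [g3.2, g4.1]

/-- **the mean width given the area** -/
theorem mean_width {u E b : ℝ} (hu : 0 < u) (hu4 : u < 1 / 4) (hb : u < b) (hE : Opt u E)
    {S : ℕ → Set ℝ} (hS1 : ∀ n : ℕ, Ioo (u * (n : ℝ) ^ 2) (b * (n : ℝ) ^ 2) ⊆ S n)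
    (hS2 : ∀ n : ℕ, S n ⊆ Ici (u * (n : ℝ) ^ 2)) :
    Tendsto (fun n : ℕ => (∑ᶠ f ∈ {f : ZMod (2 * n) → ℤ × ℤ | H981.IsLoop (2 * n) f ∧
        (area (2 * n) f : ℝ) ∈ S n}, wd n f / n) /
      ({f : ZMod (2 * n) → ℤ × ℤ | H981.IsLoop (2 * n) f ∧
        (area (2 * n) f : ℝ) ∈ S n}.ncard : ℝ)) atTop (𝓝 (2 * √(u / V E) * M E (1, 0))) := by
  obtain ⟨c0, hc0⟩ : ∃ c0, c0 = 2 * √(u / V E) * M E (1, 0) := ⟨_, rfl⟩
  rw [← hc0, Metric.tendsto_nhds]
  intro ε hε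
  obtain ⟨c, hc, h1⟩ := shape_cond hu hu4 hb hE hS1 hS2 (show 0 < ε / 8 by linarith)
  have hexp : Tendsto (fun n : ℕ => (4 + |c0|) * Real.exp (-(c * n))) atTop (𝓝 ((4 + |c0|) * 0)) := by
    apply Tendsto.const_mul
    refine Real.tendsto_exp_neg_atTop_nhds_zero.comp ?_
    exact Tendsto.const_mul_atTop hc tendsto_natCast_atTop_atTop
  rw [mul_zero] at hexp
  filter_upwards [h1, hexp.eventually_lt_const (show 0 < ε / 4 by linarith),
    eventually_ge_atTop 2] with n ⟨h2, h3⟩ h4 hn2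
  have hn1 : 1 ≤ n := by omega
  obtain ⟨A, hA⟩ : ∃ A : Set (ZMod (2 * n) → ℤ × ℤ), A = {f | H981.IsLoop (2 * n) f ∧
        (area (2 * n) f : ℝ) ∈ S n} := ⟨_, rfl⟩
  have hAfin : A.Finite := (loops_finite hn1).subset fun f hf => by rw [hA] at hf; exact hf.1
  rw [← hA] at h2 h3 ⊢
  have hsum : (∑ᶠ (f : ZMod (2 * n) → ℤ × ℤ) (_ : H981.IsLoop (2 * n) f ∧
      (area (2 * n) f : ℝ) ∈ S n), wd n f / n) = ∑ f ∈ hAfin.toFinset, wd n f / n := by
    rw [← finsum_mem_eq_finite_toFinset_sum _ hAfin, hA]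
    rfl
  rw [hsum]
  have hcard : (A.ncard : ℝ) = ∑ i ∈ hAfin.toFinset, (1 : ℝ) := by
    rw [Finset.sum_const, nsmul_eq_mul, mul_one, Set.ncard_eq_toFinset_card A hAfin]
  have hZ : (0 : ℝ) < ∑ i ∈ hAfin.toFinset, (1 : ℝ) := by
    rw [← hcard]
    exact_mod_cast h2
  have key := wmean hAfin.toFinset (fun _ => (1 : ℝ)) (fun f => wd n f / n)
    (fun f => ¬Good n (WT u E) (ε / 8) f) (c := c0) (ε := ε / 4) (B := 4 + |c0|)
    (p := Real.exp (-(c * n))) (fun _ _ => zero_le_one) hZ (by linarith)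
    (by
      intro f _ hg
      rw [not_not] at hg
      have := good_width hn1 hu hE.1 hg
      rw [hc0]
      linarith)
    (by positivity)
    (by
      intro f hf
      rw [Set.Finite.mem_toFinset, hA] at hf
      have g1 := wd_le hn2 hf.1
      have g2 : 0 ≤ wd n f / n := div_nonneg (wd_nonneg hn1 f) (Nat.cast_nonneg _)
      refine (abs_sub _ _).trans ?_
      rw [abs_of_nonneg g2]
      linarith)
    (by
      rw [← hcard]
      refine le_trans (le_of_eq ?_) h3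
      have e1 : {i | i ∈ hAfin.toFinset ∧ ¬Good n (WT u E) (ε / 8) i} =
          {f : ZMod (2 * n) → ℤ × ℤ | H981.IsLoop (2 * n) f ∧ (area (2 * n) f : ℝ) ∈ S n ∧
            ¬Good n (WT u E) (ε / 8) f} := by
        ext f
        simp only [Set.Finite.mem_toFinset, hA, mem_ofPred_eq]
        tauto
      rw [e1]
      have hfin : {f : ZMod (2 * n) → ℤ × ℤ | H981.IsLoop (2 * n) f ∧ (area (2 * n) f : ℝ) ∈ S n ∧
            ¬Good n (WT u E) (ε / 8) f}.Finite := (loops_finite hn1).subset fun f hf => hf.1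
      rw [finsum_mem_eq_finite_toFinset_sum _ hfin, Finset.sum_const, nsmul_eq_mul, mul_one,
        Set.ncard_eq_toFinset_card _ hfin])
  rw [← hcard] at key
  simp only [one_mul] at key
  rw [Real.dist_eq]
  linarith

end Pool.Agent.H26.WS
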