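import Pool.Agent.H26.WS.Shape
import Pool.Agent.H26.WS.Max

/-!
Consequences of the closeness of the convex hulls.
-/

set_option autoImplicit false

open MeasureTheory Set Filter Topology Metric
open scoped ENNReal Pointwise

namespace Pool.Agent.H26.WS

open Pool.Agent.T6.H44.AR (det Refl Swp sup)

theorem vol_trans (A : Set (ℝ × ℝ)) (w : ℝ × ℝ) :
    volume ((fun x => x + w) '' A) = volume A := by
  rw [image_add_right, measure_preimage_add_right]

theorem volr_trans (A : Set (ℝ × ℝ)) (w : ℝ × ℝ) :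
    volume.real ((fun x => x + w) '' A) = volume.real A := by
  unfold Measure.real
  rw [vol_trans]

theorem trans_compact {A : Set (ℝ × ℝ)} (hA : IsCompact A) (w : ℝ × ℝ) :
    IsCompact ((fun x => x + w) '' A) := hA.image (by fun_prop)

/-- a region of the right area inside a set close to `T` is close to `T` in measure -/
theorem close_region {T : Set (ℝ × ℝ)} (hT : IsCompact T) (hTn : T.Nonempty) {δ : ℝ}
    (hδ : 0 < δ) : ∃ δ1 : ℝ, 0 < δ1 ∧ ∀ (w : ℝ × ℝ) (R C : Set (ℝ × ℝ)), MeasurableSet R →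
      R ⊆ C → IsCompact C → hausdorffDist C ((fun x => x + w) '' T) < δ1 →
      volume.real T - δ1 ≤ volume.real R →
      volume.real (symmDiff R ((fun x => x + w) '' T)) < δ := by
  have hfin : volume T ≠ ⊤ := hT.measure_lt_top.ne
  have h1 : Tendsto (fun r => volume (cthickening r T)) (𝓝 0) (𝓝 (volume T)) :=
    tendsto_measure_cthickening_of_isCompact hT
  have h2 : ∀ᶠ r in 𝓝[>] (0 : ℝ), volume (cthickening r T) < volume T + ENNReal.ofReal (δ / 4) := by
    have h3 : volume T < volume T + ENNReal.ofReal (δ / 4) := by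
      apply ENNReal.lt_add_right hfin
      simp [hδ]
    exact (h1.eventually_lt_const h3).filter_mono nhdsWithin_le_nhds
  have h4 : ∀ᶠ r in 𝓝[>] (0 : ℝ), r ∈ Ioo 0 (δ / 4) := Ioo_mem_nhdsGT (by linarith)
  obtain ⟨δ1, h5, h6⟩ := (h2.and h4).exists
  refine ⟨δ1, h6.1, ?_⟩
  intro w R C hRm hRC hC hdist hvol
  have hTw := trans_compact hT w
  have hTwn : ((fun x => x + w) '' T).Nonempty := hTn.image _
  have hAc : IsCompact (cthickening δ1 T) := hT.cthickening
  have hAw := trans_compact hAc w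
  have hsub : C ⊆ (fun x => x + w) '' cthickening δ1 T := by
    intro x hx
    obtain ⟨_, ⟨t, ht, rfl⟩, hxy⟩ := near hC hTw hTwn hx
    refine ⟨x - w, ?_, by simp⟩
    apply mem_cthickening_of_dist_le (x - w) t _ _ ht
    have : dist (x - w) t = dist x (t + w) := by
      rw [dist_eq_norm, dist_eq_norm]
      congr 1
      abel
    rw [this]
    exact hxy.trans hdist.le
  have hTA : (fun x => x + w) '' T ⊆ (fun x => x + w) '' cthickening δ1 T :=
    image_mono (self_subset_cthickening T)
  have hvA : volume.real ((fun x => x + w) '' cthickening δ1 T) ≤ volume.real T + δ / 4 := by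
    rw [volr_trans]
    unfold Measure.real
    have h7 := ENNReal.toReal_mono (ENNReal.add_lt_top.2
      ⟨hT.measure_lt_top, ENNReal.ofReal_lt_top⟩).ne h5.le
    rwa [ENNReal.toReal_add hfin ENNReal.ofReal_ne_top, ENNReal.toReal_ofReal (by linarith)] at h7
  have g1 : volume.real (R \ (fun x => x + w) '' T) ≤ δ / 4 := by
    have h7 : volume.real (R \ (fun x => x + w) '' T) ≤
        volume.real ((fun x => x + w) '' cthickening δ1 T \ (fun x => x + w) '' T) :=
      measureReal_mono (sdiff_subset_sdiff_left (hRC.trans hsub))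
        (ne_top_of_le_ne_top hAw.measure_lt_top.ne (measure_mono sdiff_subset))
    rw [measureReal_sdiff hTA hTw.measurableSet hAw.measure_lt_top.ne, volr_trans T] at h7
    linarith
  have g2 : volume.real (((fun x => x + w) '' T) \ R) ≤ δ / 4 + δ1 := by
    have h7 : volume.real (((fun x => x + w) '' T) \ R) ≤
        volume.real ((fun x => x + w) '' cthickening δ1 T \ R) :=
      measureReal_mono (sdiff_subset_sdiff_left hTA)
        (ne_top_of_le_ne_top hAw.measure_lt_top.ne (measure_mono sdiff_subset))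
    rw [measureReal_sdiff (hRC.trans hsub) hRm hAw.measure_lt_top.ne] at h7
    linarith
  have g3 : volume.real (symmDiff R ((fun x => x + w) '' T)) ≤
      volume.real (R \ (fun x => x + w) '' T) + volume.real (((fun x => x + w) '' T) \ R) := by
    rw [symmDiff_def]
    exact measureReal_union_le _ _
  linarith [h6.2]

theorem det_diff_le {v x y : ℝ × ℝ} {d : ℝ} (h : dist x y ≤ d) :
    det v x ≤ det v y + 2 * ‖v‖ * d := by
  have h1 := abs_le.1 (abs_det_le v (x - y))
  rw [det_sub] at h1
  rw [dist_eq_norm] at h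
  have h2 := mul_le_mul_of_nonneg_left h (norm_nonneg v)
  linarith [h1.2]

/-- two symmetric convex bodies with translates near the same sets are equal -/
theorem unique_shape {T T' : Set (ℝ × ℝ)} (hT : IsCompact T)
    (hTs : ∀ x ∈ T, -x ∈ T) (hT' : IsCompact T') (hTn' : T'.Nonempty) (hTs' : ∀ x ∈ T', -x ∈ T')
    (hTv' : Convex ℝ T')
    (h : ∀ δ : ℝ, 0 < δ → ∃ (C : Set (ℝ × ℝ)) (w w' : ℝ × ℝ), IsCompact C ∧ C.Nonempty ∧
      hausdorffDist C ((fun x => x + w) '' T) < δ ∧
      hausdorffDist C ((fun x => x + w') '' T') < δ) : T ⊆ T' := by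
  intro x hx
  by_contra hcon
  obtain ⟨f, u, hu1, hu2⟩ := geometric_hahn_banach_closed_point hTv' hT'.isClosed hcon
  obtain ⟨v, hv⟩ := func_det f
  rw [hv] at hu2
  obtain ⟨δ, hδ⟩ : ∃ δ, δ = (det v x - u) / (4 * ‖v‖ + 1) := ⟨_, rfl⟩
  have hn := norm_nonneg v
  have hδ0 : 0 < δ := by rw [hδ]; exact div_pos (by linarith) (by linarith)
  obtain ⟨C, w, w', hC, hCn, h1, h2⟩ := h δ hδ0
  have key : ∀ y ∈ T, ∃ y' ∈ T', dist (y + w) (y' + w') ≤ 2 * δ := by
    intro y hy
    obtain ⟨c, hc, hyc⟩ := near (trans_compact hT w) hC hCn ⟨y, hy, rfl⟩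
    obtain ⟨_, ⟨y', hy', rfl⟩, hcy⟩ := near hC (trans_compact hT' w') (hTn'.image _) hc
    rw [hausdorffDist_comm] at hyc
    refine ⟨y', hy', ?_⟩
    have := dist_triangle (y + w) c (y' + w')
    simp only at hyc hcy
    linarith
  obtain ⟨y, hy, hxy⟩ := key x hx
  obtain ⟨z, hz, hxz⟩ := key (-x) (hTs x hx)
  have e1 := det_diff_le (v := v) hxy
  have e2 := det_diff_le (v := v) (x := z + w') (y := -x + w) (d := 2 * δ)
    (by rw [dist_comm]; exact hxz)
  have e3 := hu1 y hy
  have e4 := hu1 (-z) (hTs' z hz)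
  rw [hv] at e3 e4
  have e5 : ∀ p : ℝ × ℝ, det v (-p) = -det v p := by
    intro p
    simp only [det, Prod.fst_neg, Prod.snd_neg]
    ring
  rw [AR.det_add, AR.det_add] at e1 e2
  rw [e5] at e2 e4
  have e6 : det v x - u ≤ 4 * ‖v‖ * δ := by nlinarith
  have e7 : (4 * ‖v‖ + 1) * δ = det v x - u := by
    rw [hδ]
    field_simp
  linarith

end Pool.Agent.H26.WS
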