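import Pool.Agent.H26.WS.Wid

/-!
The number of polygons with a given property: one of them is typical.
-/

set_option autoImplicit false

namespace Pool.Agent.H26.WS

open Pool.Agent.T6.H44 Pool.Agent.T6.H44.PG
open Pool.Agent.TH795.EP Pool.Agent.TH795.EP2 Pool.Agent.TH795.SE2 Pool.Agent.TH262.SawL
  Pool.Agent.Y981.L2 H981 Finset Filter Topology

theorem card_words {n : ℕ} (hn : 2 ≤ n) (Bad : Set (ZMod (2 * n) → ℤ × ℤ))
    (hB : ∀ f ∈ Bad, IsLoop (2 * n) f) :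
    ∃ S : Finset (List St), Bad.ncard ≤ S.card ∧ ∀ V ∈ S, Saw V ∧ V.length = 2 * n - 1 ∧
      (fun i : ZMod (2 * n) => path V i.val) ∈ Bad := by
  classical
  have : NeZero (2 * n) := ⟨by omega⟩
  refine ⟨(fs Saw (2 * n - 1)).filter (fun V => (fun i : ZMod (2 * n) => path V i.val) ∈ Bad),
    ?_, ?_⟩
  · obtain ⟨S, hS⟩ : ∃ S, S = (fs Saw (2 * n - 1)).filter
      (fun V => (fun i : ZMod (2 * n) => path V i.val) ∈ Bad) := ⟨_, rfl⟩
    rw [← hS]
    have hsub : Bad ⊆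
        (fun V : List St => fun i : ZMod (2 * n) => path V i.val) '' (S : Set (List St)) := by
      intro f hfB
      have hf := hB f hfB
      obtain ⟨w, h1, h2, h3⟩ := loop_word (by omega) hf 0
      have e : (fun i : ZMod (2 * n) => path w i.val) = f := by
        funext i
        rw [h3 _ (ZMod.val_lt i), ZMod.natCast_zmod_val, zero_add, hf.1]
        simp
      refine ⟨w, ?_, e⟩
      rw [Finset.mem_coe, hS, Finset.mem_filter, mem_fs, e]
      exact ⟨⟨h1, h2⟩, hfB⟩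
    refine (Set.ncard_le_ncard hsub (S.finite_toSet.image _)).trans ?_
    refine (Set.ncard_image_le S.finite_toSet).trans ?_
    rw [Set.ncard_coe_finset]
  · intro V hV
    rw [Finset.mem_filter, mem_fs] at hV
    exact ⟨hV.1.1, hV.1.2, hV.2⟩

/-- the closed polygon of the cut points -/
def clo (ms : List ℕ) (V : List St) : List (ℕ × (ℤ × ℤ)) := cut ms V ++ [(1, (-dx V, -dy V))]

theorem up_gen {n : ℕ} (hn : 2 ≤ n) {s : ℕ} (hs : 1 ≤ s) (Bad : Set (ZMod (2 * n) → ℤ × ℤ))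
    (hB : ∀ f ∈ Bad, IsLoop (2 * n) f) (hne : 0 < Bad.ncard) :
    ∃ (V : List St) (ms : List ℕ), (∀ m ∈ ms, m ≤ s) ∧ V.length = ms.sum ∧
      V.length = 2 * n - 1 ∧ (fun i : ZMod (2 * n) => path V i.val) ∈ Bad ∧
      (∀ e ∈ clo ms V, 1 ≤ e.1 ∧ |e.2.1| + |e.2.2| ≤ (e.1 : ℤ) ∧
      0 < a e.1 e.2.1 e.2.2) ∧ ((clo ms V).map Prod.fst).sum = 2 * n ∧
      (clo ms V).length ≤ 2 * n / s + 2 ∧
      Bad.ncard ≤ ((2 * s + 1) ^ 2) ^ (2 * n / s + 1) *
        ((clo ms V).map (fun e => a e.1 e.2.1 e.2.2)).prod := by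
  classical
  obtain ⟨ms, hm1, hm2, hm3⟩ := exists_ms hs (2 * n - 1)
  have hm3' : ms.length ≤ 2 * n / s + 1 :=
    hm3.trans (Nat.add_le_add_right (Nat.div_le_div_right (by omega)) 1)
  obtain ⟨S, hS1, hS2⟩ := card_words hn Bad hB
  have hSne : S.Nonempty := by
    rw [← Finset.card_pos]
    omega
  obtain ⟨V, hVS, hcount⟩ := cut_count ((2 * s + 1) ^ 2) ms S hSne
    (fun w hw => ⟨(hS2 w hw).1, by rw [hm1]; exact (hS2 w hw).2.1⟩)
    (fun m hm => Nat.pow_le_pow_left (by have := (hm2 m hm).2; omega) 2)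
  obtain ⟨hV1, hV2, hVB⟩ := hS2 V hVS
  have hV3 := hB _ hVB
  have hlen : V.length = ms.sum := by rw [hV2, hm1]
  have hadj : |dx V| + |dy V| = 1 := by
    have h1 := hV3.2.2 ((2 * n - 1 : ℕ) : ZMod (2 * n))
    have hne : NeZero (2 * n) := ⟨by omega⟩
    have : Fact (1 < 2 * n) := ⟨by omega⟩
    have e : ((2 * n - 1 : ℕ) : ZMod (2 * n)) + 1 = 0 := by
      have : (((2 * n - 1) + 1 : ℕ) : ZMod (2 * n)) = 0 := by
        rw [Nat.sub_add_cancel (by omega)]
        exact ZMod.natCast_self _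
      rw [← this]
      push_cast
      rfl
    simp only at h1
    rw [e, ZMod.val_cast_of_lt (by omega), ZMod.val_zero, path_zero', ← hV2, path_len] at h1
    simpa using h1
  obtain ⟨C, hC⟩ : ∃ C, C = cut ms V := ⟨_, rfl⟩
  have hCfst : C.map Prod.fst = ms := by rw [hC]; exact cut_fst ms V
  rw [← hC] at hcount
  have ha1 : 1 ≤ a 1 (-dx V) (-dy V) := by
    have h5 : |dx V| = 0 ∨ |dx V| = 1 := by
      have := abs_nonneg (dx V)
      have := abs_nonneg (dy V)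
      omega
    apply one_le_a
    · intro h0
      rw [Prod.mk.injEq, neg_eq_zero, neg_eq_zero] at h0
      rw [h0.1, h0.2] at hadj
      simp at hadj
    · rcases h5 with h5 | h5
      · have h6 : |dy V| = 1 := by omega
        rw [abs_eq_zero] at h5
        rcases (abs_eq (by norm_num)).1 h6 with h6 | h6 <;> rw [h5, h6] <;> norm_num
      · have h6 : |dy V| = 0 := by omega
        rw [abs_eq_zero] at h6
        rcases (abs_eq (by norm_num)).1 h5 with h5 | h5 <;> rw [h5, h6] <;> norm_num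
    · rw [abs_neg, abs_neg, hadj]
      norm_num
  have hFC : clo ms V = C ++ [(1, (-dx V, -dy V))] := by rw [hC]; rfl
  obtain ⟨F, hF⟩ : ∃ F : List (ℕ × (ℤ × ℤ)), F = clo ms V := ⟨_, rfl⟩
  rw [← hF] at hFC
  have hprod : Bad.ncard ≤ ((2 * s + 1) ^ 2) ^ (2 * n / s + 1) *
      (F.map (fun e => a e.1 e.2.1 e.2.2)).prod := by
    rw [hFC, List.map_append, List.prod_append]
    simp only [List.map_cons, List.map_nil, List.prod_cons, List.prod_nil, mul_one]
    calc Bad.ncard ≤ S.card := hS1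
      _ ≤ ((2 * s + 1) ^ 2) ^ ms.length * (C.map (fun e => a e.1 e.2.1 e.2.2)).prod := hcount
      _ ≤ ((2 * s + 1) ^ 2) ^ (2 * n / s + 1) *
          ((C.map (fun e => a e.1 e.2.1 e.2.2)).prod * a 1 (-dx V) (-dy V)) := by
          apply Nat.mul_le_mul
          · exact Nat.pow_le_pow_right (by positivity) hm3'
          · exact Nat.le_mul_of_pos_right _ ha1
  have hpos : ∀ e ∈ F, 0 < a e.1 e.2.1 e.2.2 := by
    intro e he
    rw [Nat.pos_iff_ne_zero]
    intro h0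
    have h1 : (F.map (fun e => a e.1 e.2.1 e.2.2)).prod = 0 := by
      apply List.prod_eq_zero
      rw [List.mem_map]
      exact ⟨e, he, h0⟩
    rw [h1, mul_zero] at hprod
    omega
  have hall : ∀ e ∈ F, 1 ≤ e.1 ∧ |e.2.1| + |e.2.2| ≤ (e.1 : ℤ) ∧ 0 < a e.1 e.2.1 e.2.2 := by
    intro e he
    have h1 := hpos e he
    refine ⟨?_, ?_, h1⟩
    · rw [hFC, List.mem_append] at he
      rcases he with he | he
      · have h2 : e.1 ∈ C.map Prod.fst := List.mem_map_of_mem he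
        rw [hCfst] at h2
        exact (hm2 _ h2).1
      · rw [List.mem_singleton] at he
        rw [he]
    · obtain ⟨w, -, g1, g2, g3⟩ := exists_of_a h1
      have := abs_add_abs_le w
      rw [g1, g2, g3] at this
      exact this
  have hfst : (F.map Prod.fst).sum = 2 * n := by
    rw [hFC, List.map_append, List.sum_append, hCfst, hm1]
    simp only [List.map_cons, List.map_nil, List.sum_cons, List.sum_nil]
    omega
  have hFlen : F.length ≤ 2 * n / s + 2 := by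
    rw [hFC, List.length_append, List.length_singleton]
    have : C.length = ms.length := by rw [← hCfst, List.length_map]
    omega
  rw [hF] at hall hfst hFlen hprod
  exact ⟨V, ms, fun m hm => (hm2 m hm).2, hlen, hV2, hVB, hall, hfst, hFlen, hprod⟩

theorem count_gen {N : ℕ} (hN0' : 0 < N) {ε : ℝ} (hε : 0 < ε) :
    ∀ᶠ n : ℕ in atTop, 2 ≤ n ∧ ∀ Bad : Set (ZMod (2 * n) → ℤ × ℤ), (∀ f ∈ Bad, IsLoop (2 * n) f) →
      0 < Bad.ncard → ∃ (V : List St) (ms : List ℕ), (∀ m ∈ ms, m ≤ 2 * n / N + 1) ∧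
      V.length = ms.sum ∧ V.length = 2 * n - 1 ∧
      (fun i : ZMod (2 * n) => path V i.val) ∈ Bad ∧
      (∀ e ∈ clo ms V, 1 ≤ e.1 ∧ |e.2.1| + |e.2.2| ≤ (e.1 : ℤ)) ∧
      ((clo ms V).map Prod.fst).sum = 2 * n ∧
      (Bad.ncard : ℝ) ≤ Real.exp (-(n * AR.cost Rate (scl n (clo ms V))) + ε * n) * ln n := by
  obtain ⟨K1, hK1, h1⟩ := Y981.L2.a_le
  obtain ⟨K2, hK2, h2⟩ := Pool.Agent.T6.H53.AL.le_ln
  have hN0 : (0 : ℝ) < N := by exact_mod_cast hN0'
  obtain ⟨C, hC, hlog⟩ := log_dom (2 * (N + 1) + (N + 2) * K1 + K2)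
    (show 0 < ε / 16 by linarith)
  filter_upwards [eventually_ge_atTop 2,
    tendsto_natCast_atTop_atTop.eventually_ge_atTop (2 * C / ε)] with n hn2 hnC
  refine ⟨hn2, ?_⟩
  intro Bad hB hpos
  have hnpos : (0 : ℝ) < n := by exact_mod_cast (by omega : 0 < n)
  have hmu := mu_pos
  have hln := h2 n hn2
  have hl0 : (0 : ℝ) < ln n := lt_of_lt_of_le (by positivity) hln
  have han0 : (0 : ℝ) < Bad.ncard := by exact_mod_cast hpos
  obtain ⟨s, hs⟩ : ∃ s, s = 2 * n / N + 1 := ⟨_, rfl⟩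
  have hs1' : 1 ≤ s := by rw [hs]; exact Nat.le_add_left 1 _
  obtain ⟨V, ms, g1, g2, g3, g4, hF1, hF2, hF4, hF6⟩ := up_gen hn2 hs1' Bad hB hpos
  refine ⟨V, ms, fun m hm => hs ▸ g1 m hm, g2, g3, g4, fun e he => ⟨(hF1 e he).1, (hF1 e he).2.1⟩,
    hF2, ?_⟩
  obtain ⟨F, hF⟩ : ∃ F : List (ℕ × (ℤ × ℤ)), F = clo ms V := ⟨_, rfl⟩
  rw [← hF] at hF1 hF2 hF4 hF6 ⊢
  have hsN : 2 * n / s ≤ N := by
    have g1 : 2 * n < s * N := by
      rw [hs, mul_comm (2 * n / N + 1) N]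
      exact Nat.lt_mul_div_succ _ hN0'
    have g2 : 2 * n / s < N + 1 := by
      rw [Nat.div_lt_iff_lt_mul hs1']
      calc 2 * n < s * N := g1
        _ ≤ (N + 1) * s := by nlinarith
    omega
  rw [scl_cost (by omega)]
  obtain ⟨c1, hc1⟩ : ∃ c1, c1 = (F.map (fun e => (e.1 : ℝ) *
    Rate ((e.2.1 : ℝ) / e.1, (e.2.2 : ℝ) / e.1))).sum := ⟨_, rfl⟩
  rw [← hc1, mul_div_cancel₀ _ hnpos.ne']
  obtain ⟨p1, p2⟩ := log_prod_le hK1 h1 (show 2 ≤ 2 * n by omega) F (fun e he => by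
    obtain ⟨f1, f2, f3⟩ := hF1 e he
    refine ⟨?_, f1, f2, f3⟩
    have : e.1 ≤ (F.map Prod.fst).sum := List.single_le_sum (by simp) _ (List.mem_map_of_mem he)
    omega)
  rw [← hc1, hF2] at p2
  have p3 : Real.log (Bad.ncard : ℝ) ≤
      (N + 1) * (2 * Real.log (2 * s + 1)) +
      Real.log ((F.map (fun e => a e.1 e.2.1 e.2.2)).prod : ℕ) := by
    have g1 : (Bad.ncard : ℝ) ≤ (((2 * s + 1) ^ 2) ^ (N + 1) : ℝ) *
        ((F.map (fun e => a e.1 e.2.1 e.2.2)).prod : ℕ) := by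
      have g2 : Bad.ncard ≤ ((2 * s + 1) ^ 2) ^ (N + 1) *
          (F.map (fun e => a e.1 e.2.1 e.2.2)).prod := by
        refine hF6.trans (Nat.mul_le_mul_right _ ?_)
        exact Nat.pow_le_pow_right (by positivity) (by omega)
      exact_mod_cast g2
    have g3 := Real.log_le_log han0 g1
    have g4 : (0 : ℝ) < ((F.map (fun e => a e.1 e.2.1 e.2.2)).prod : ℕ) := by exact_mod_cast p1
    rw [Real.log_mul (by positivity) g4.ne', Real.log_pow, Real.log_pow] at g3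
    push_cast at g3 ⊢
    exact g3
  have hs8 : (2 * (s : ℝ) + 1) ≤ ((8 * n : ℕ) : ℝ) := by
    have g1 : s ≤ 2 * n + 1 := by
      rw [hs]
      have := Nat.div_le_self (2 * n) N
      omega
    have g2 : 2 * s + 1 ≤ 8 * n := by omega
    exact_mod_cast g2
  have hls : Real.log (2 * (s : ℝ) + 1) ≤ Real.log ((8 * n : ℕ) : ℝ) :=
    Real.log_le_log (by positivity) hs8
  have h8n : (16 : ℝ) ≤ ((8 * n : ℕ) : ℝ) := by exact_mod_cast (by omega : 16 ≤ 8 * n)
  have hl8 : 1 ≤ Real.log ((8 * n : ℕ) : ℝ) := by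
    rw [Real.le_log_iff_exp_le (by linarith)]
    have := Real.exp_one_lt_d9
    linarith
  have hl8' : Real.log ((8 * n : ℕ) : ℝ) ≤ Real.log ((8 * n : ℕ) : ℝ) ^ 2 := by nlinarith
  have hl2 : Real.log ((2 * n : ℕ) : ℝ) ^ 2 ≤ Real.log ((8 * n : ℕ) : ℝ) ^ 2 := by
    apply pow_le_pow_left₀ (Real.log_nonneg (by exact_mod_cast (by omega : 1 ≤ 2 * n)))
    apply Real.log_le_log (by exact_mod_cast (by omega : 0 < 2 * n))
    exact_mod_cast (by omega : 2 * n ≤ 8 * n)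
  have hl1 : Real.log (n : ℝ) ^ 2 ≤ Real.log ((8 * n : ℕ) : ℝ) ^ 2 := by
    apply pow_le_pow_left₀ (Real.log_nonneg (by exact_mod_cast (by omega : 1 ≤ n)))
    apply Real.log_le_log hnpos
    exact_mod_cast (by omega : n ≤ 8 * n)
  have l2 : (2 * n : ℕ) * Real.log mu - K2 * Real.log (n : ℝ) ^ 2 ≤ Real.log (ln n) := by
    have := Real.log_le_log (by positivity) hln
    rw [Real.log_mul (by positivity) (Real.exp_pos _).ne', Real.log_pow, Real.log_exp] at this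
    linarith
  have hlen : (F.length : ℝ) ≤ N + 2 := by exact_mod_cast (by omega : F.length ≤ N + 2)
  have l3 := hlog (8 * n)
  have l4 : C ≤ ε / 2 * n := by
    rw [div_le_iff₀ hε] at hnC
    linarith
  obtain ⟨L, hL⟩ : ∃ L, L = Real.log ((8 * n : ℕ) : ℝ) ^ 2 := ⟨_, rfl⟩
  rw [← hL] at hl8' hl2 hl1 l3
  have hL0 : 0 ≤ L := by rw [hL]; positivity
  have m1 : (N + 1) * (2 * Real.log (2 * (s : ℝ) + 1)) ≤ (N + 1) * (2 * L) :=
    mul_le_mul_of_nonneg_left (by linarith) (by linarith)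
  have m2 : (F.length : ℝ) * (K1 * Real.log ((2 * n : ℕ) : ℝ) ^ 2) ≤ (N + 2) * (K1 * L) := by
    apply mul_le_mul hlen _ (by positivity) (by linarith)
    exact mul_le_mul_of_nonneg_left hl2 hK1
  have m3 : K2 * Real.log (n : ℝ) ^ 2 ≤ K2 * L := mul_le_mul_of_nonneg_left hl1 hK2
  rw [← Real.log_le_log_iff han0 (by positivity), Real.log_mul (Real.exp_pos _).ne' hl0.ne',
    Real.log_exp]
  push_cast at l3
  have m4 : (N + 1) * (2 * L) + (N + 2) * (K1 * L) + K2 * L ≤ ε * n := by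
    have : (2 * ((N : ℝ) + 1) + (N + 2) * K1 + K2) * L ≤ ε / 16 * (8 * n) + C := l3
    linarith
  linarith

end Pool.Agent.H26.WS
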