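import Pool.Graph.R_seed8.Y981.L2.Area1
import Mathlib

/-!
The region enclosed by a loop is inside the convex hull of the loop.
-/

set_option autoImplicit false

open MeasureTheory Set
open scoped ENNReal

namespace Pool.Agent.H26.WS

open Pool.Agent.Y981.L2 (Above Encl area even_cross finite_encl)

/-- the cell with the lower left corner `c`, scaled by `1/r` -/
def cell (r : ℝ) (c : ℤ × ℤ) : Set (ℝ × ℝ) :=
  Ico ((c.1 : ℝ) / r) (((c.1 : ℝ) + 1) / r) ×ˢ Ico ((c.2 : ℝ) / r) (((c.2 : ℝ) + 1) / r)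

/-- the scaled vertices -/
def pts {m : ℕ} (r : ℝ) (f : ZMod m → ℤ × ℤ) : Set (ℝ × ℝ) :=
  range fun k : ZMod m => (((f k).1 : ℝ) / r, ((f k).2 : ℝ) / r)

theorem exists_above {m : ℕ} {f : ZMod m → ℤ × ℤ} {c : ℤ × ℤ} (hc : Encl m f c) :
    ∃ k, Above m f c.1 c.2 k := by
  by_contra hcon
  push Not at hcon
  have : IsEmpty {k : ZMod m // Above m f c.1 c.2 k} := ⟨fun k => hcon k.1 k.2⟩
  unfold Encl at hc
  rw [Nat.card_of_isEmpty] at hc
  exact absurd hc (by decide)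

theorem exists_below {m : ℕ} [NeZero m] {f : ZMod m → ℤ × ℤ}
    (hs : ∀ i : ZMod m, |(f (i+1)).1 - (f i).1| + |(f (i+1)).2 - (f i).2| = 1)
    {c : ℤ × ℤ} (hc : Encl m f c) :
    ∃ k, (((f k).1 = c.1 ∧ (f (k + 1)).1 = c.1 + 1) ∨
      ((f k).1 = c.1 + 1 ∧ (f (k + 1)).1 = c.1)) ∧ (f k).2 ≤ c.2 := by
  by_contra hcon
  push Not at hcon
  have h4 : Nat.card {k : ZMod m // Above m f c.1 c.2 k} =
      Nat.card {k : ZMod m // (((f k).1 = c.1 ∧ (f (k + 1)).1 = c.1 + 1) ∨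
      ((f k).1 = c.1 + 1 ∧ (f (k + 1)).1 = c.1))} := by
    apply Nat.card_congr
    apply Equiv.subtypeEquivRight
    intro k
    unfold Above
    constructor
    · rintro ⟨h, _⟩
      exact h
    · intro h
      exact ⟨h, hcon k h⟩
  unfold Encl at hc
  rw [h4] at hc
  exact (Nat.not_odd_iff_even.2 (even_cross f hs c.1)) hc

/-- a horizontal edge is in the convex hull -/
theorem edge_mem {m : ℕ} {r : ℝ} {f : ZMod m → ℤ × ℤ}
    (hs : ∀ i : ZMod m, |(f (i+1)).1 - (f i).1| + |(f (i+1)).2 - (f i).2| = 1)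
    {a : ℤ} {k : ZMod m} (hk : ((f k).1 = a ∧ (f (k + 1)).1 = a + 1) ∨
      ((f k).1 = a + 1 ∧ (f (k + 1)).1 = a)) :
    ((a : ℝ) / r, ((f k).2 : ℝ) / r) ∈ convexHull ℝ (pts r f) ∧
    (((a : ℝ) + 1) / r, ((f k).2 : ℝ) / r) ∈ convexHull ℝ (pts r f) := by
  have h1 := hs k
  have h2 : (f (k + 1)).2 = (f k).2 := by
    rcases hk with ⟨g1, g2⟩ | ⟨g1, g2⟩
    · rw [g1, g2] at h1
      have : |a + 1 - a| = 1 := by rw [add_sub_cancel_left]; rfl
      rw [this] at h1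
      have : |(f (k+1)).2 - (f k).2| = 0 := by omega
      rw [abs_eq_zero] at this
      omega
    · rw [g1, g2] at h1
      have : |a - (a + 1)| = 1 := by rw [sub_add_cancel_left]; rfl
      rw [this] at h1
      have : |(f (k+1)).2 - (f k).2| = 0 := by omega
      rw [abs_eq_zero] at this
      omega
  have m1 : (((f k).1 : ℝ) / r, ((f k).2 : ℝ) / r) ∈ convexHull ℝ (pts r f) :=
    subset_convexHull ℝ _ ⟨k, rfl⟩
  have m2 : (((f (k + 1)).1 : ℝ) / r, ((f (k + 1)).2 : ℝ) / r) ∈ convexHull ℝ (pts r f) :=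
    subset_convexHull ℝ _ ⟨k + 1, rfl⟩
  rw [h2] at m2
  rcases hk with ⟨g1, g2⟩ | ⟨g1, g2⟩
  · rw [g1] at m1
    rw [g2] at m2
    push_cast at m2
    exact ⟨m1, m2⟩
  · rw [g1] at m1
    rw [g2] at m2
    push_cast at m1
    exact ⟨m2, m1⟩

theorem mem_seg_of {H : Set (ℝ × ℝ)} (hH : Convex ℝ H) {a b c d s t : ℝ} (hac : a < c)
    (hbd : b < d) (h1 : (a, b) ∈ H) (h2 : (a, d) ∈ H) (h3 : (c, b) ∈ H)
    (h4 : (c, d) ∈ H) (hs : s ∈ Icc a c) (ht : t ∈ Icc b d) : (s, t) ∈ H := by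
  have e : ∀ x, (x, b) ∈ H → (x, d) ∈ H → (x, t) ∈ H := by
    intro x g1 g2
    have := hH g1 g2 (a := (d - t) / (d - b)) (b := (t - b) / (d - b))
      (div_nonneg (by linarith [ht.2]) (by linarith)) (div_nonneg (by linarith [ht.1]) (by linarith))
      (by
        rw [← add_div, div_eq_one_iff_eq (by linarith)]
        ring)
    have e2 : ((d - t) / (d - b)) • ((x, b) : ℝ × ℝ) + ((t - b) / (d - b)) • ((x, d) : ℝ × ℝ) =
        (x, t) := by
      have : d - b ≠ 0 := by linarith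
      simp only [Prod.smul_mk, Prod.mk_add_mk, smul_eq_mul, Prod.mk.injEq]
      constructor
      · field_simp
        ring
      · field_simp
        ring
    rwa [e2] at this
  have g1 := e a h1 h2
  have g2 := e c h3 h4
  have := hH g1 g2 (a := (c - s) / (c - a)) (b := (s - a) / (c - a))
    (div_nonneg (by linarith [hs.2]) (by linarith)) (div_nonneg (by linarith [hs.1]) (by linarith))
    (by
      rw [← add_div, div_eq_one_iff_eq (by linarith)]
      ring)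
  have e2 : ((c - s) / (c - a)) • ((a, t) : ℝ × ℝ) + ((s - a) / (c - a)) • ((c, t) : ℝ × ℝ) =
      (s, t) := by
    have : c - a ≠ 0 := by linarith
    simp only [Prod.smul_mk, Prod.mk_add_mk, smul_eq_mul, Prod.mk.injEq]
    constructor
    · field_simp
      ring
    · field_simp
      ring
  rwa [e2] at this

/-- an enclosed cell is in the convex hull -/
theorem cell_sub {m : ℕ} [NeZero m] {r : ℝ} (hr : 0 < r) {f : ZMod m → ℤ × ℤ}
    (hs : ∀ i : ZMod m, |(f (i+1)).1 - (f i).1| + |(f (i+1)).2 - (f i).2| = 1)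
    {c : ℤ × ℤ} (hc : Encl m f c) : cell r c ⊆ convexHull ℝ (pts r f) := by
  obtain ⟨k, hk1, hk2⟩ := exists_above hc
  obtain ⟨l, hl1, hl2⟩ := exists_below hs hc
  obtain ⟨a1, a2⟩ := edge_mem (r := r) hs hk1
  obtain ⟨b1, b2⟩ := edge_mem (r := r) hs hl1
  rintro ⟨s, t⟩ ⟨hs', ht'⟩
  simp only [mem_Ico] at hs' ht'
  have i1 : ((f l).2 : ℝ) ≤ c.2 := by exact_mod_cast hl2
  have i2 : (c.2 : ℝ) + 1 ≤ (f k).2 := by exact_mod_cast hk2
  have j1 := div_le_div_of_nonneg_right i1 hr.le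
  have j2 := div_le_div_of_nonneg_right i2 hr.le
  have j3 : (c.1 : ℝ) / r < ((c.1 : ℝ) + 1) / r := div_lt_div_of_pos_right (by linarith) hr
  have j4 : ((f l).2 : ℝ) / r < ((f k).2 : ℝ) / r := div_lt_div_of_pos_right (by linarith) hr
  exact mem_seg_of (convex_convexHull ℝ _) j3 j4 b1 a1 b2 a2 ⟨hs'.1, hs'.2.le⟩
    ⟨by linarith [ht'.1], by linarith [ht'.2]⟩

theorem cell_vol {r : ℝ} (hr : 0 < r) (c : ℤ × ℤ) :
    volume (cell r c) = ENNReal.ofReal (1 / r ^ 2) := by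
  unfold cell
  rw [Measure.volume_eq_prod, Measure.prod_prod, Real.volume_Ico, Real.volume_Ico,
    ← ENNReal.ofReal_mul (by rw [← sub_div]; simp; positivity)]
  congr 1
  field_simp
  ring

theorem cell_meas (r : ℝ) (c : ℤ × ℤ) : MeasurableSet (cell r c) :=
  measurableSet_Ico.prod measurableSet_Ico

theorem cell_disj {r : ℝ} (hr : 0 < r) {c d : ℤ × ℤ} (h : c ≠ d) : Disjoint (cell r c) (cell r d) := by
  rw [Set.disjoint_left]
  rintro ⟨s, t⟩ ⟨h1, h2⟩ ⟨h3, h4⟩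
  apply h
  simp only [mem_Ico, div_le_iff₀ hr, lt_div_iff₀ hr] at h1 h2 h3 h4
  have e1 : c.1 < d.1 + 1 := by
    have : (c.1 : ℝ) < d.1 + 1 := by linarith
    exact_mod_cast this
  have e2 : d.1 < c.1 + 1 := by
    have : (d.1 : ℝ) < c.1 + 1 := by linarith
    exact_mod_cast this
  have e3 : c.2 < d.2 + 1 := by
    have : (c.2 : ℝ) < d.2 + 1 := by linarith
    exact_mod_cast this
  have e4 : d.2 < c.2 + 1 := by
    have : (d.2 : ℝ) < c.2 + 1 := by linarith
    exact_mod_cast this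
  exact Prod.ext (by omega) (by omega)

/-- the enclosed region, scaled by `1/r` -/
def region {m : ℕ} (r : ℝ) (f : ZMod m → ℤ × ℤ) : Set (ℝ × ℝ) :=
  ⋃ c ∈ {c : ℤ × ℤ | Encl m f c}, cell r c

theorem region_meas {m : ℕ} (r : ℝ) (f : ZMod m → ℤ × ℤ) : MeasurableSet (region r f) :=
  MeasurableSet.biUnion (to_countable _) fun c _ => cell_meas r c

theorem region_sub {m : ℕ} [NeZero m] {r : ℝ} (hr : 0 < r) {f : ZMod m → ℤ × ℤ}
    (hs : ∀ i : ZMod m, |(f (i+1)).1 - (f i).1| + |(f (i+1)).2 - (f i).2| = 1) :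
    region r f ⊆ convexHull ℝ (pts r f) :=
  iUnion₂_subset fun _ hc => cell_sub hr hs hc

theorem region_vol {m : ℕ} [NeZero m] {r : ℝ} (hr : 0 < r) {f : ZMod m → ℤ × ℤ}
    (hs : ∀ i : ZMod m, |(f (i+1)).1 - (f i).1| + |(f (i+1)).2 - (f i).2| = 1) :
    volume (region r f) = ENNReal.ofReal ((area m f : ℝ) / r ^ 2) := by
  unfold region
  rw [measure_biUnion (to_countable _) (fun c _ d _ h => cell_disj hr h) (fun c _ => cell_meas r c)]
  simp only [cell_vol hr]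
  have hfin := finite_encl hs
  have : Fintype {c : ℤ × ℤ | Encl m f c} := hfin.fintype
  rw [tsum_fintype, Finset.sum_const, nsmul_eq_mul]
  have e1 : (Finset.univ : Finset {c : ℤ × ℤ | Encl m f c}).card = area m f := by
    unfold area
    rw [Finset.card_univ, ← Nat.card_eq_fintype_card]
    rfl
  rw [e1, ← ENNReal.ofReal_natCast, ← ENNReal.ofReal_mul (Nat.cast_nonneg _)]
  congr 1
  ring

theorem pts_finite {m : ℕ} [NeZero m] (r : ℝ) (f : ZMod m → ℤ × ℤ) : (pts r f).Finite :=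
  finite_range _

theorem hull_compact {m : ℕ} [NeZero m] (r : ℝ) (f : ZMod m → ℤ × ℤ) :
    IsCompact (convexHull ℝ (pts r f)) := (pts_finite r f).isCompact_convexHull (𝕜 := ℝ)

theorem area_le_hull {m : ℕ} [NeZero m] {r : ℝ} (hr : 0 < r) {f : ZMod m → ℤ × ℤ}
    (hs : ∀ i : ZMod m, |(f (i+1)).1 - (f i).1| + |(f (i+1)).2 - (f i).2| = 1) :
    (area m f : ℝ) / r ^ 2 ≤ volume.real (convexHull ℝ (pts r f)) := by
  have h1 := measureReal_mono (μ := volume) (region_sub hr hs) (hull_compact r f).measure_lt_top.ne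
  have h2 : volume.real (region r f) = (area m f : ℝ) / r ^ 2 := by
    unfold Measure.real
    rw [region_vol hr hs, ENNReal.toReal_ofReal (by positivity)]
  rwa [h2] at h1

end Pool.Agent.H26.WS
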