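import Pool.Agent.H26.WS.ZK
import Pool.Agent.H26.AR.BM2

/-!
The limit body is a Wulff shape.
-/

set_option autoImplicit false

open MeasureTheory Set
open scoped ENNReal Pointwise

namespace Pool.Agent.H26.WS

theorem vol_smul {K : Set (ℝ × ℝ)} {r : ℝ} :
    volume.real (r • K) = r ^ 2 * volume.real K := by
  unfold Measure.real
  rw [Measure.addHaar_smul]
  simp only [Module.finrank_prod, Module.finrank_self, ENNReal.toReal_mul]
  rw [ENNReal.toReal_ofReal (abs_nonneg _), one_add_one_eq_two, abs_of_nonneg (sq_nonneg r)]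

/-- the inequality of Brunn and Minkowski in the plane -/
theorem bm_real {A B : Set (ℝ × ℝ)} (hA : IsCompact A) (hB : IsCompact B) (hAn : A.Nonempty)
    (hBn : B.Nonempty) :
    (√(volume.real A) + √(volume.real B)) ^ 2 ≤ volume.real (A + B) := by
  have hfr : Module.finrank ℝ (ℝ × ℝ) = 2 := by simp
  have hv : ∀ {S : Set (ℝ × ℝ)}, IsCompact S → volume S = ENNReal.ofReal (volume.real S) := by
    intro S hS
    unfold Measure.real
    rw [ENNReal.ofReal_toReal hS.measure_lt_top.ne]
  have hbm := Pool.Agent.Helper14K9.Iso.bm_pow (volume : Measure (ℝ × ℝ)) hA hB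
    hAn hBn (Real.sqrt_nonneg (volume.real A)) (Real.sqrt_nonneg (volume.real B))
    (by rw [hfr, Real.sq_sqrt measureReal_nonneg, hv hA])
    (by rw [hfr, Real.sq_sqrt measureReal_nonneg, hv hB])
  rw [hfr] at hbm
  rw [hv (hA.add hB), ENNReal.ofReal_le_ofReal_iff measureReal_nonneg] at hbm
  exact hbm

theorem interior_nonempty_of_vol {A : Set (ℝ × ℝ)} (hAv : Convex ℝ A)
    (h : 0 < volume.real A) : (interior A).Nonempty := by
  by_contra hcon
  rw [not_nonempty_iff_eq_empty] at hcon
  have h1 : volume (frontier A) = 0 := hAv.addHaar_frontier volume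
  have h2 : A ⊆ frontier A := by
    intro x hx
    refine ⟨subset_closure hx, ?_⟩
    rw [hcon]
    exact notMem_empty x
  have h3 : volume A = 0 := measure_mono_null h2 h1
  unfold Measure.real at h
  rw [h3] at h
  simp at h

/-- **the limit body** -/
theorem lim_body {K C : Set (ℝ × ℝ)} (hc : Convex ℝ K) (hK : IsCompact K)
    (h0 : (0 : ℝ × ℝ) ∈ interior K) {lam : ℝ} (hlam : 0 < lam) (hCv : Convex ℝ C)
    (hC : IsCompact C) (hCn : C.Nonempty) (hvol : lam ^ 2 * volume.real K ≤ volume.real C)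
    (hup : ∀ κ : ℝ, 0 < κ → κ < 1 →
      volume.real (C + lam • K) ≤ volume.real C + 3 * (1 + κ) * (lam ^ 2 * volume.real K)) :
    ∃ w : ℝ × ℝ, C = (fun x => x + w) '' (lam • K) := by
  have hV0 : 0 < volume.real K := by
    unfold Measure.real
    apply ENNReal.toReal_pos
    · exact (Measure.measure_pos_of_nonempty_interior volume ⟨0, h0⟩).ne'
    · exact hK.measure_lt_top.ne
  obtain ⟨r2, hr2⟩ : ∃ r2, r2 = lam ^ 2 * volume.real K := ⟨_, rfl⟩
  have hr0 : 0 < r2 := by rw [hr2]; positivity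
  rw [← hr2] at hvol
  simp only [← hr2] at hup
  have h1 : volume.real (C + lam • K) ≤ volume.real C + 3 * r2 := by
    apply le_of_forall_pos_le_add
    intro ε hε
    obtain ⟨κ, hκ⟩ : ∃ κ, κ = min (1 / 2) (ε / (3 * r2)) := ⟨_, rfl⟩
    have hκ0 : 0 < κ := by rw [hκ]; positivity
    have hκ1 : κ < 1 := by
      rw [hκ]
      exact lt_of_le_of_lt (min_le_left _ _) (by norm_num)
    have h2 : κ ≤ ε / (3 * r2) := by rw [hκ]; exact min_le_right _ _
    rw [le_div_iff₀ (by positivity)] at h2
    have h3 := hup κ hκ0 hκ1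
    linarith
  have hlK : IsCompact (lam • K) := hK.smul lam
  have hKn : K.Nonempty := ⟨0, interior_subset h0⟩
  have hlKn : (lam • K).Nonempty := hKn.smul_set
  have h2 := bm_real hC hlK hCn hlKn
  rw [vol_smul, ← hr2, add_sq, Real.sq_sqrt measureReal_nonneg, Real.sq_sqrt hr0.le] at h2
  have h3 : √(volume.real C) * √r2 ≤ r2 := by linarith
  have h4 : volume.real C ≤ r2 := by
    have h5 : 0 < √r2 := Real.sqrt_pos.2 hr0
    have h6 : √(volume.real C) ≤ √r2 := by
      nlinarith [Real.mul_self_sqrt hr0.le]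
    rwa [Real.sqrt_le_sqrt_iff hr0.le] at h6
  have h5 : volume.real C = r2 := le_antisymm h4 hvol
  obtain ⟨Q, hQ⟩ : ∃ Q, Q = (1 / 2 : ℝ) • (C + lam • K) := ⟨_, rfl⟩
  have hQc : IsCompact Q := by rw [hQ]; exact (hC.add hlK).smul _
  obtain ⟨w, hw⟩ := bm_eq (A := C) (B := lam • K) (K := Q) hC hCv
    (interior_nonempty_of_vol hCv (by rw [h5]; exact hr0)) hlK (hc.smul _)
    (interior_nonempty_of_vol (hc.smul _) (by rw [vol_smul, ← hr2]; exact hr0)) hQc
    (by
      intro x hx y hy
      rw [hQ, ← smul_add]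
      exact smul_mem_smul_set (add_mem_add hx hy))
    (by
      show volume.real C = volume.real (lam • K)
      rw [vol_smul, ← hr2, h5])
    (by
      show volume.real Q ≤ volume.real C
      rw [hQ, vol_smul]
      linarith)
  exact ⟨w, hw⟩

end Pool.Agent.H26.WS
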