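import Pool.Agent.H26.WS.Steep
import Pool.Agent.H26.WS.Width

/-!
The polygons under pressure: the area and the shape.
-/

set_option autoImplicit false

open MeasureTheory Set Filter Topology Metric
open scoped ENNReal Pointwise

namespace Pool.Agent.H26.WS

open Pool.Agent.T6.H44 Pool.Agent.T6.H44.PG
open Pool.Agent.TH795.EP Pool.Agent.TH795.EP2 H981
open Pool.Agent.Y981.L2 (area ln Rate loops_finite)
open Pool.Agent.Y981.L2X (M)
open Pool.Agent.H26.WF (Kc V RR rho g pr am Am FE mgf)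

/-- the weight of the polygons with the property `B` -/
noncomputable def wt (n : ℕ) (s : ℝ) (B : (ZMod (2 * n) → ℤ × ℤ) → Prop) : ℝ :=
  ∑ᶠ f ∈ {f : ZMod (2 * n) → ℤ × ℤ | H981.IsLoop (2 * n) f ∧ B f}, Real.exp (s * area (2 * n) f / n)

/-- the total weight -/
noncomputable def Zs (n : ℕ) (s : ℝ) : ℝ :=
  ∑ᶠ f ∈ {f : ZMod (2 * n) → ℤ × ℤ | H981.IsLoop (2 * n) f}, Real.exp (s * area (2 * n) f / n)

theorem fin_B {n : ℕ} (hn : 1 ≤ n) (B : (ZMod (2 * n) → ℤ × ℤ) → Prop) :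
    {f : ZMod (2 * n) → ℤ × ℤ | H981.IsLoop (2 * n) f ∧ B f}.Finite :=
  (loops_finite hn).subset fun _ hf => hf.1

theorem wt_le {n : ℕ} (hn : 1 ≤ n) {s : ℝ} {m : ℕ} {c : ℕ → ℝ}
    {B : (ZMod (2 * n) → ℤ × ℤ) → Prop} {S : ℕ → (ZMod (2 * n) → ℤ × ℤ) → Prop}
    (h : ∀ f : ZMod (2 * n) → ℤ × ℤ, H981.IsLoop (2 * n) f → B f → ∃ i < m, S i f ∧
      s * area (2 * n) f / n ≤ c i) :
    wt n s B ≤ ∑ i ∈ Finset.range m, Real.exp (c i) *
      ({f : ZMod (2 * n) → ℤ × ℤ | H981.IsLoop (2 * n) f ∧ S i f}.ncard : ℝ) := by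
  classical
  unfold wt
  rw [finsum_mem_eq_finite_toFinset_sum _ (fin_B hn B)]
  have h1 : ∀ i, (({f : ZMod (2 * n) → ℤ × ℤ | H981.IsLoop (2 * n) f ∧ S i f}.ncard : ℕ) : ℝ) =
      ∑ f ∈ (loops_finite hn).toFinset, if S i f then (1 : ℝ) else 0 := by
    intro i
    rw [Finset.sum_boole, ← Set.ncard_coe_finset]
    congr 2
    ext f
    simp
  simp only [h1, Finset.mul_sum]
  rw [Finset.sum_comm]
  refine le_trans (Finset.sum_le_sum (g := fun f => ∑ i ∈ Finset.range m, Real.exp (c i) *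
      (if S i f then (1 : ℝ) else 0)) ?_) (Finset.sum_le_sum_of_subset_of_nonneg ?_ ?_)
  · intro f hf
    rw [Set.Finite.mem_toFinset] at hf
    obtain ⟨i, hi, hS, hc⟩ := h f hf.1 hf.2
    refine le_trans ?_ (Finset.single_le_sum (f := fun i => Real.exp (c i) *
      (if S i f then (1 : ℝ) else 0)) (fun j _ => ?_) (Finset.mem_range.2 hi))
    · simp only [hS, if_true, mul_one]
      exact Real.exp_le_exp.2 hc
    · have := Real.exp_pos (c j)
      split_ifs <;> simp [this.le]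
  · intro f hf
    rw [Set.Finite.mem_toFinset] at hf ⊢
    exact hf.1
  · intro f _ _
    apply Finset.sum_nonneg
    intro j _
    have := Real.exp_pos (c j)
    split_ifs <;> simp [this.le]

theorem wt_union {n : ℕ} (hn : 1 ≤ n) {s : ℝ} {B B1 B2 : (ZMod (2 * n) → ℤ × ℤ) → Prop}
    (h : ∀ f, H981.IsLoop (2 * n) f → B f → B1 f ∨ B2 f) : wt n s B ≤ wt n s B1 + wt n s B2 := by
  classical
  unfold wt
  rw [finsum_mem_eq_finite_toFinset_sum _ (fin_B hn B),
    finsum_mem_eq_finite_toFinset_sum _ (fin_B hn B1),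
    finsum_mem_eq_finite_toFinset_sum _ (fin_B hn B2)]
  refine le_trans (Finset.sum_le_sum_of_subset_of_nonneg
    (t := (fin_B hn B1).toFinset ∪ (fin_B hn B2).toFinset) ?_ (fun _ _ _ => (Real.exp_pos _).le)) ?_
  · intro f hf
    rw [Set.Finite.mem_toFinset] at hf
    rw [Finset.mem_union, Set.Finite.mem_toFinset, Set.Finite.mem_toFinset]
    rcases h f hf.1 hf.2 with h1 | h1
    · exact Or.inl ⟨hf.1, h1⟩
    · exact Or.inr ⟨hf.1, h1⟩
  · have h1 := Finset.sum_union_inter (s₁ := (fin_B hn B1).toFinset) (s₂ := (fin_B hn B2).toFinset)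
      (f := fun f => Real.exp (s * area (2 * n) f / n))
    have h2 : 0 ≤ ∑ f ∈ (fin_B hn B1).toFinset ∩ (fin_B hn B2).toFinset,
      Real.exp (s * area (2 * n) f / n) := Finset.sum_nonneg fun _ _ => (Real.exp_pos _).le
    linarith

theorem Zs_pos : ∀ s : ℝ, ∀ᶠ n : ℕ in atTop, 0 < Zs n s := by
  intro s
  filter_upwards [ln_pos', eventually_ge_atTop 1] with n h1 hn
  unfold Zs
  rw [finsum_mem_eq_finite_toFinset_sum _ (loops_finite hn)]
  apply Finset.sum_pos (fun _ _ => Real.exp_pos _)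
  rw [← Finset.card_pos, ← Set.ncard_eq_toFinset_card _ (loops_finite hn)]
  have : (0 : ℝ) < ({f : ZMod (2 * n) → ℤ × ℤ | H981.IsLoop (2 * n) f}.ncard : ℝ) := h1
  exact_mod_cast this

theorem Zs_low (s : ℝ) {ε : ℝ} (hε : 0 < ε) : ∀ᶠ n : ℕ in atTop,
    Real.exp ((FE s - ε) * n) * ln n ≤ Zs n s := by
  filter_upwards [(WF.pressure s).eventually_const_lt (show FE s - ε < FE s by linarith),
    Zs_pos s, ln_pos', eventually_ge_atTop 1] with n h1 h2 h3 hn1
  have hn : (0 : ℝ) < n := by exact_mod_cast hn1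
  have h4 : mgf n s = Zs n s / ln n := rfl
  have h5 : 0 < mgf n s := by rw [h4]; exact div_pos h2 h3
  rw [lt_div_iff₀ hn] at h1
  have h6 : Real.exp ((FE s - ε) * n) < mgf n s := by
    rw [← Real.lt_log_iff_exp_lt h5]
    exact h1
  rw [h4, lt_div_iff₀ h3] at h6
  exact h6.le

/-- the values of `s u - R(u)` away from the maximiser -/
theorem gap {s : ℝ} (hc : ContinuousAt am s) {ε : ℝ} (hε : 0 < ε) : ∃ γ : ℝ, 0 < γ ∧
    ∀ u ∈ Icc (0 : ℝ) (1 / 4), ε ≤ |u - am s| → s * u - RR u ≤ FE s - 4 * γ := by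
  obtain ⟨K, hK⟩ : ∃ K : Set ℝ, K = Icc (0 : ℝ) (1 / 4) ∩ {u | ε ≤ |u - am s|} := ⟨_, rfl⟩
  have hKc : IsCompact K := by
    rw [hK]
    apply isCompact_Icc.inter_right
    exact isClosed_le continuous_const (by fun_prop)
  rcases K.eq_empty_or_nonempty with h | h
  · refine ⟨1, one_pos, fun u hu hu2 => ?_⟩
    have : u ∈ K := by rw [hK]; exact ⟨hu, hu2⟩
    rw [h] at this
    exact absurd this (notMem_empty u)
  · obtain ⟨v, hv, hmax⟩ := hKc.exists_isMaxOn h ((WF.FE_cont s).mono (by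
      rw [hK]
      exact inter_subset_left))
    have hv' := hv
    rw [hK] at hv'
    have h1 : s * v - RR v < FE s := by
      refine lt_of_le_of_ne (WF.le_FE s hv'.1) ?_
      intro heq
      have h2 := WF.am_unique hc (show v ∈ Am s from ⟨hv'.1, heq⟩)
      have h3 : ε ≤ |v - am s| := hv'.2
      rw [h2, sub_self, abs_zero] at h3
      linarith
    refine ⟨(FE s - (s * v - RR v)) / 4, by linarith, fun u hu hu2 => ?_⟩
    have h4 : s * u - RR u ≤ s * v - RR v := hmax (show u ∈ K by rw [hK]; exact ⟨hu, hu2⟩)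
    linarith

/-- the number of the polygons of area at least `u n²` -/
theorem num_le {u : ℝ} (hu : u ∈ Ico (0 : ℝ) (1 / 4)) {ε : ℝ} (hε : 0 < ε) :
    ∀ᶠ n : ℕ in atTop, ({f : ZMod (2 * n) → ℤ × ℤ | H981.IsLoop (2 * n) f ∧
      u * (n : ℝ) ^ 2 ≤ area (2 * n) f}.ncard : ℝ) ≤ Real.exp (-((RR u - ε) * n)) * ln n := by
  rcases hu.1.eq_or_lt with h0 | h0
  · filter_upwards [eventually_ge_atTop 1] with n hn
    rw [← h0, WF.RR_zero]
    have h1 := Set.ncard_le_ncard (s := {f : ZMod (2 * n) → ℤ × ℤ | H981.IsLoop (2 * n) f ∧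
      0 * (n : ℝ) ^ 2 ≤ area (2 * n) f}) (t := {f : ZMod (2 * n) → ℤ × ℤ | H981.IsLoop (2 * n) f})
      (fun f hf => hf.1) (loops_finite hn)
    have h2 : ((({f : ZMod (2 * n) → ℤ × ℤ | H981.IsLoop (2 * n) f ∧
      0 * (n : ℝ) ^ 2 ≤ area (2 * n) f}).ncard : ℕ) : ℝ) ≤ ln n := by exact_mod_cast h1
    have h3 : 1 ≤ Real.exp (-((0 - ε) * n)) := by
      apply Real.one_le_exp
      have : (0 : ℝ) ≤ n := Nat.cast_nonneg _
      nlinarith
    have h4 : (0 : ℝ) ≤ ln n := Nat.cast_nonneg _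
    nlinarith
  · filter_upwards [WF.ev_par h0 hu.2 hε, ln_pos'] with n h1 h2
    have h3 := h1.2
    have h4 : Y981.L2.par n (u * (n : ℝ) ^ 2) =
      ({f : ZMod (2 * n) → ℤ × ℤ | H981.IsLoop (2 * n) f ∧
      u * (n : ℝ) ^ 2 ≤ area (2 * n) f}.ncard : ℝ) / ln n := rfl
    rw [h4, div_le_iff₀ h2] at h3
    exact h3

/-- **concentration of the area** -/
theorem conc {s : ℝ} (hc : ContinuousAt am s) {ε : ℝ} (hε : 0 < ε) : ∃ c : ℝ, 0 < c ∧
    ∀ᶠ n : ℕ in atTop, wt n s (fun f => ε ≤ |(area (2 * n) f : ℝ) / (n : ℝ) ^ 2 - am s|) ≤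
      Real.exp (-(c * n)) * Zs n s := by
  obtain ⟨γ, hγ, hgap⟩ := gap hc hε
  obtain ⟨d, hd, hunif⟩ := Metric.uniformContinuousOn_iff.1
    (isCompact_Icc.uniformContinuousOn_of_continuous WF.RR_cont) γ hγ
  obtain ⟨m, hm⟩ := exists_nat_gt (1 / d)
  have hm0 : (0 : ℝ) < m := lt_trans (by positivity) hm
  have hmN : 0 < m := by exact_mod_cast hm0
  have hmd : 1 / (4 * (m : ℝ)) < d := by
    rw [div_lt_iff₀ (by positivity)]
    rw [div_lt_iff₀ hd] at hm
    nlinarith
  refine ⟨γ / 2, by linarith, ?_⟩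
  have hev : ∀ᶠ n : ℕ in atTop, ∀ i ∈ Finset.range m,
      ({f : ZMod (2 * n) → ℤ × ℤ | H981.IsLoop (2 * n) f ∧
      ((i : ℝ) / (4 * m)) * (n : ℝ) ^ 2 ≤ area (2 * n) f}.ncard : ℝ) ≤
        Real.exp (-((RR ((i : ℝ) / (4 * m)) - γ) * n)) * ln n := by
    rw [Filter.eventually_all_finset]
    intro i hi
    rw [Finset.mem_range] at hi
    have hi1 : (i : ℝ) < m := by exact_mod_cast hi
    exact num_le ⟨by positivity, by rw [div_lt_iff₀ (by positivity)]; linarith⟩ hγ
  filter_upwards [hev, Zs_low s hγ, Zs_pos s, ln_pos', eventually_ge_atTop 1,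
    tendsto_natCast_atTop_atTop.eventually_gt_atTop (Real.log m / (γ / 2))]
    with n h1 h2 h3 h4 hn1 h5
  have hn : (0 : ℝ) < n := by exact_mod_cast hn1
  rw [div_lt_iff₀ (by linarith)] at h5
  refine (wt_le hn1 (m := m) (c := fun i => (FE s - 3 * γ + RR ((i : ℝ) / (4 * m))) * n)
    (S := fun i f => ((i : ℝ) / (4 * m)) * (n : ℝ) ^ 2 ≤ area (2 * n) f) ?_).trans ?_
  · intro f hf hfε
    have ha := WF.area_quarter hn1 hf
    obtain ⟨v, hv⟩ : ∃ v, v = (area (2 * n) f : ℝ) / (n : ℝ) ^ 2 := ⟨_, rfl⟩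
    rw [← hv] at hfε
    have hv0 : 0 ≤ v := by rw [hv]; positivity
    have hv4 : v ≤ 1 / 4 := by
      rw [hv, div_le_iff₀ (by positivity)]
      exact ha
    have hav : (area (2 * n) f : ℝ) = v * (n : ℝ) ^ 2 := by
      rw [hv]
      field_simp
    have hexp : s * (area (2 * n) f : ℝ) / n = s * v * n := by
      rw [hav]
      field_simp
    obtain ⟨i, hi, hi1, hi2⟩ : ∃ i < m, (i : ℝ) / (4 * m) ≤ v ∧
        v ≤ (i : ℝ) / (4 * m) + 1 / (4 * m) := by
      rcases hv4.lt_or_eq with h | h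
      · refine ⟨⌊v * (4 * m)⌋₊, ?_, ?_, ?_⟩
        · rw [Nat.floor_lt (by positivity)]
          nlinarith
        · rw [div_le_iff₀ (by positivity)]
          exact Nat.floor_le (by positivity)
        · rw [← add_div, le_div_iff₀ (by positivity)]
          exact (Nat.lt_floor_add_one _).le
      · refine ⟨m - 1, by omega, ?_, ?_⟩
        · rw [h, Nat.cast_sub (by omega), div_le_iff₀ (by positivity)]
          push_cast
          linarith
        · rw [h, Nat.cast_sub (by omega), ← add_div, le_div_iff₀ (by positivity)]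
          push_cast
          linarith
    refine ⟨i, hi, ?_, ?_⟩
    · show ((i : ℝ) / (4 * m)) * (n : ℝ) ^ 2 ≤ (area (2 * n) f : ℝ)
      rw [hav]
      exact mul_le_mul_of_nonneg_right hi1 (by positivity)
    · rw [hexp]
      apply mul_le_mul_of_nonneg_right _ hn.le
      have g1 := hgap v ⟨hv0, hv4⟩ hfε
      have hi3 : (i : ℝ) < m := by exact_mod_cast hi
      have g2 : (i : ℝ) / (4 * m) ∈ Icc (0 : ℝ) (1 / 4) := by
        refine ⟨by positivity, ?_⟩
        rw [div_le_iff₀ (by positivity)]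
        linarith
      have g3 := hunif v ⟨hv0, hv4⟩ _ g2 (by
        rw [Real.dist_eq, abs_lt]
        constructor <;> linarith)
      rw [Real.dist_eq, abs_lt] at g3
      linarith [g3.2]
  · have hterm : ∀ i ∈ Finset.range m,
        Real.exp ((FE s - 3 * γ + RR ((i : ℝ) / (4 * m))) * n) *
        ({f : ZMod (2 * n) → ℤ × ℤ | H981.IsLoop (2 * n) f ∧
          ((i : ℝ) / (4 * m)) * (n : ℝ) ^ 2 ≤ area (2 * n) f}.ncard : ℝ) ≤
        Real.exp ((FE s - 2 * γ) * n) * ln n := by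
      intro i hi
      refine (mul_le_mul_of_nonneg_left (h1 i hi) (Real.exp_pos _).le).trans (le_of_eq ?_)
      rw [← mul_assoc, ← Real.exp_add]
      congr 2
      ring
    refine (Finset.sum_le_card_nsmul _ _ _ hterm).trans ?_
    rw [Finset.card_range, nsmul_eq_mul]
    have hm2 : (m : ℝ) ≤ Real.exp (γ / 2 * n) := by
      rw [← Real.log_le_iff_le_exp hm0]
      linarith
    calc (m : ℝ) * (Real.exp ((FE s - 2 * γ) * n) * ln n)
        ≤ Real.exp (γ / 2 * n) * (Real.exp ((FE s - 2 * γ) * n) * ln n) :=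
          mul_le_mul_of_nonneg_right hm2 (by positivity)
      _ = Real.exp (-(γ / 2 * n)) * (Real.exp ((FE s - γ) * n) * ln n) := by
          rw [← mul_assoc, ← mul_assoc, ← Real.exp_add, ← Real.exp_add]
          congr 2
          ring
      _ ≤ _ := mul_le_mul_of_nonneg_left h2 (Real.exp_pos _).le

/-- **the shape under pressure** -/
theorem shapeP {s : ℝ} (hc : ContinuousAt am s) (hs : 0 < am s) {E : ℝ} (hE : Opt (am s) E)
    {δ : ℝ} (hδ : 0 < δ) : ∃ c : ℝ, 0 < c ∧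
    ∀ᶠ n : ℕ in atTop, wt n s (fun f => ¬Good n (WT (am s) E) δ f) ≤
      Real.exp (-(c * n)) * Zs n s := by
  obtain ⟨η, hη, habs⟩ := shape_abs hs hE hδ
  obtain ⟨κ, hκ⟩ : ∃ κ, κ = min η (η / (4 * (|s| + 1))) := ⟨_, rfl⟩
  have hs1 : 0 < |s| + 1 := by positivity
  have hκ0 : 0 < κ := by rw [hκ]; exact lt_min hη (by positivity)
  have hκ1 : κ ≤ η := by rw [hκ]; exact min_le_left _ _
  have hκ2 : |s| * κ ≤ η / 4 := by
    have h1 : κ ≤ η / (4 * (|s| + 1)) := by rw [hκ]; exact min_le_right _ _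
    rw [le_div_iff₀ (by positivity)] at h1
    nlinarith [abs_nonneg s]
  obtain ⟨c, hc0, hconc⟩ := conc hc hκ0
  refine ⟨min c (η / 2) / 2, by have : 0 < min c (η / 2) := lt_min hc0 (by linarith)
                                linarith, ?_⟩
  have hmin : 0 < min c (η / 2) := lt_min hc0 (by linarith)
  filter_upwards [habs, hconc, Zs_low s (show 0 < η / 4 by linarith), Zs_pos s, ln_pos',
    eventually_ge_atTop 1,
    tendsto_natCast_atTop_atTop.eventually_gt_atTop (Real.log 2 / (min c (η / 2) / 2))]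
    with n h1 h2 h3 h4 h5 hn1 h6
  have hn : (0 : ℝ) < n := by exact_mod_cast hn1
  rw [div_lt_iff₀ (by linarith)] at h6
  have hu := wt_union hn1 (s := s) (B := fun f => ¬Good n (WT (am s) E) δ f)
    (B1 := fun f => κ ≤ |(area (2 * n) f : ℝ) / (n : ℝ) ^ 2 - am s|)
    (B2 := fun f => |(area (2 * n) f : ℝ) / (n : ℝ) ^ 2 - am s| < κ ∧
      ¬Good n (WT (am s) E) δ f) (by
        intro f _ hf
        rcases le_or_gt κ |(area (2 * n) f : ℝ) / (n : ℝ) ^ 2 - am s| with h | h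
        · exact Or.inl h
        · exact Or.inr ⟨h, hf⟩)
  have h7 : wt n s (fun f => |(area (2 * n) f : ℝ) / (n : ℝ) ^ 2 - am s| < κ ∧
      ¬Good n (WT (am s) E) δ f) ≤ Real.exp (-(η / 2 * n)) * Zs n s := by
    refine (wt_le hn1 (m := 1) (c := fun _ => (s * am s + η / 4) * n)
      (S := fun _ f => (am s - η) * (n : ℝ) ^ 2 ≤ area (2 * n) f ∧
        ¬Good n (WT (am s) E) δ f) ?_).trans ?_
    · rintro f hf ⟨g1, g2⟩
      obtain ⟨v, hv⟩ : ∃ v, v = (area (2 * n) f : ℝ) / (n : ℝ) ^ 2 := ⟨_, rfl⟩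
      rw [← hv, abs_lt] at g1
      have hav : (area (2 * n) f : ℝ) = v * (n : ℝ) ^ 2 := by
        rw [hv]
        field_simp
      have hexp : s * (area (2 * n) f : ℝ) / n = s * v * n := by
        rw [hav]
        field_simp
      refine ⟨0, one_pos, ⟨?_, g2⟩, ?_⟩
      · rw [hav]
        apply mul_le_mul_of_nonneg_right _ (by positivity)
        linarith [g1.1]
      · rw [hexp]
        apply mul_le_mul_of_nonneg_right _ hn.le
        have g3 : s * (v - am s) ≤ |s| * κ := by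
          refine (le_abs_self _).trans ?_
          rw [abs_mul]
          exact mul_le_mul_of_nonneg_left (abs_le.2 ⟨by linarith [g1.1], by linarith [g1.2]⟩)
            (abs_nonneg s)
        linarith
    · rw [Finset.sum_range_one]
      refine (mul_le_mul_of_nonneg_left h1 (Real.exp_pos _).le).trans ?_
      have h8 := WF.am_eq s
      calc Real.exp ((s * am s + η / 4) * n) * (Real.exp (-(RR (am s) + η) * n) * ln n)
          = Real.exp (-(η / 2 * n)) * (Real.exp ((FE s - η / 4) * n) * ln n) := by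
            rw [← mul_assoc, ← mul_assoc, ← Real.exp_add, ← Real.exp_add, ← h8]
            congr 2
            ring
        _ ≤ _ := mul_le_mul_of_nonneg_left h3 (Real.exp_pos _).le
  have hm1 : Real.exp (-(c * n)) ≤ Real.exp (-(min c (η / 2) * n)) := by
    apply Real.exp_le_exp.2
    have := min_le_left c (η / 2)
    nlinarith
  have hm2 : Real.exp (-(η / 2 * n)) ≤ Real.exp (-(min c (η / 2) * n)) := by
    apply Real.exp_le_exp.2
    have := min_le_right c (η / 2)
    nlinarith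
  have hm3 : 2 * Real.exp (-(min c (η / 2) * n)) ≤ Real.exp (-(min c (η / 2) / 2 * n)) := by
    rw [show (2 : ℝ) * Real.exp (-(min c (η / 2) * n)) =
      Real.exp (Real.log 2 + -(min c (η / 2) * n)) by
        rw [Real.exp_add, Real.exp_log (by norm_num)]]
    apply Real.exp_le_exp.2
    linarith
  refine hu.trans ?_
  have e1 := mul_le_mul_of_nonneg_right hm1 h4.le
  have e2 := mul_le_mul_of_nonneg_right hm2 h4.le
  have e3 := mul_le_mul_of_nonneg_right hm3 h4.le
  linarith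

/-- **the mean area under pressure** -/
theorem mean_areaP {s : ℝ} (hc : ContinuousAt am s) :
    Tendsto (fun n : ℕ => (∑ᶠ f ∈ {f : ZMod (2 * n) → ℤ × ℤ | H981.IsLoop (2 * n) f},
      (area (2 * n) f : ℝ) * Real.exp (s * area (2 * n) f / n)) / Zs n s / (n : ℝ) ^ 2) atTop
      (𝓝 (am s)) := by
  rw [Metric.tendsto_nhds]
  intro ε hε
  obtain ⟨c, hc0, h1⟩ := conc hc (show 0 < ε / 4 by linarith)
  have hexp : Tendsto (fun n : ℕ => Real.exp (-(c * n))) atTop (𝓝 0) := by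
    refine Real.tendsto_exp_neg_atTop_nhds_zero.comp ?_
    exact Tendsto.const_mul_atTop hc0 tendsto_natCast_atTop_atTop
  filter_upwards [h1, hexp.eventually_lt_const (show 0 < ε / 4 by linarith), Zs_pos s,
    eventually_ge_atTop 1] with n h2 h3 h4 hn1
  have hn : (0 : ℝ) < n := by exact_mod_cast hn1
  obtain ⟨A, hA⟩ : ∃ A : Set (ZMod (2 * n) → ℤ × ℤ), A = {f | H981.IsLoop (2 * n) f} := ⟨_, rfl⟩
  have hAfin : A.Finite := by rw [hA]; exact loops_finite hn1
  have hZ : Zs n s = ∑ f ∈ hAfin.toFinset, Real.exp (s * area (2 * n) f / n) := by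
    unfold Zs
    rw [← finsum_mem_eq_finite_toFinset_sum _ hAfin, hA]
  have hN : (∑ᶠ f ∈ {f : ZMod (2 * n) → ℤ × ℤ | H981.IsLoop (2 * n) f},
      (area (2 * n) f : ℝ) * Real.exp (s * area (2 * n) f / n)) / (n : ℝ) ^ 2 =
      ∑ f ∈ hAfin.toFinset, Real.exp (s * area (2 * n) f / n) *
        ((area (2 * n) f : ℝ) / (n : ℝ) ^ 2) := by
    rw [← hA, finsum_mem_eq_finite_toFinset_sum _ hAfin, Finset.sum_div]
    apply Finset.sum_congr rfl
    intro f _
    ring
  have hZ0 := h4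
  rw [hZ] at hZ0
  have ha0 := WF.am_nonneg s
  have ha1 := WF.am_lt s
  have key := wmean hAfin.toFinset (fun f => Real.exp (s * area (2 * n) f / n))
    (fun f => (area (2 * n) f : ℝ) / (n : ℝ) ^ 2)
    (fun f => ε / 4 ≤ |(area (2 * n) f : ℝ) / (n : ℝ) ^ 2 - am s|) (c := am s) (ε := ε / 4)
    (B := 1) (p := Real.exp (-(c * n))) (fun _ _ => (Real.exp_pos _).le) hZ0 (by linarith)
    (by
      intro f _ hg
      push Not at hg
      exact hg.le)
    zero_le_one
    (by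
      intro f hf
      rw [Set.Finite.mem_toFinset, hA] at hf
      have g1 := WF.area_quarter hn1 hf
      have g2 : (area (2 * n) f : ℝ) / (n : ℝ) ^ 2 ≤ 1 / 4 := by
        rw [div_le_iff₀ (by positivity)]
        exact g1
      have g3 : 0 ≤ (area (2 * n) f : ℝ) / (n : ℝ) ^ 2 := by positivity
      rw [abs_le]
      constructor <;> linarith)
    (by
      rw [← hZ]
      refine le_trans (le_of_eq ?_) h2
      unfold wt
      have e1 : {i | i ∈ hAfin.toFinset ∧ ε / 4 ≤ |(area (2 * n) i : ℝ) / (n : ℝ) ^ 2 - am s|} =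
          {f : ZMod (2 * n) → ℤ × ℤ | H981.IsLoop (2 * n) f ∧
            ε / 4 ≤ |(area (2 * n) f : ℝ) / (n : ℝ) ^ 2 - am s|} := by
        ext f
        simp only [Set.Finite.mem_toFinset, hA, mem_ofPred_eq]
      rw [e1])
  rw [← hZ, ← hN] at key
  rw [Real.dist_eq, div_right_comm]
  refine lt_of_le_of_lt key ?_
  linarith

end Pool.Agent.H26.WS
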