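import Pool.Agent.H26.WS.Max
import Pool.Agent.H26.AR.Prs

/-!
The rate function has an infinite slope at `1/4`; the maximisers of `s u - R(u)`.
-/

set_option autoImplicit false

open MeasureTheory Set Filter Topology
open scoped Pointwise ENNReal

namespace Pool.Agent.H26.WF

open Pool.Agent.T6.H44
open Pool.Agent.Y981.L2 (Lam Rate psi mass)
open H981 (mu St dx dy Saw)

/-! ### directed walks -/

/-- the directed word of a function -/
def dwd {n : ℕ} (b : Fin n → Bool) : List St := List.ofFn fun i => if b i then St.E else St.N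

theorem dwd_len {n : ℕ} (b : Fin n → Bool) : (dwd b).length = n := by simp [dwd]

theorem dwd_inj {n : ℕ} : Function.Injective (dwd (n := n)) := by
  intro b b' h
  have h1 := List.ofFn_injective h
  funext i
  have h2 : (if b i then St.E else St.N) = if b' i then St.E else St.N := congrFun h1 i
  by_cases hb : b i = true <;> by_cases hb' : b' i = true
  · rw [hb, hb']
  · rw [if_pos hb, if_neg hb'] at h2
    exact absurd h2 (by decide)
  · rw [if_neg hb, if_pos hb'] at h2
    exact absurd h2 (by decide)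
  · rw [Bool.not_eq_true] at hb hb'
    rw [hb, hb']

theorem dir_word (w : List St) (hw : ∀ s ∈ w, s = St.E ∨ s = St.N) :
    0 ≤ dx w ∧ 0 ≤ dy w ∧ dx w + dy w = w.length := by
  induction w with
  | nil => simp
  | cons s w ih =>
    obtain ⟨h1, h2, h3⟩ := ih (fun s' hs' => hw s' (by simp [hs']))
    rw [H981.dx_cons, H981.dy_cons, List.length_cons]
    push_cast
    rcases hw s (by simp) with rfl | rfl
    · have e1 : St.E.x = 1 := rfl
      have e2 : St.E.y = 0 := rfl
      rw [e1, e2]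
      refine ⟨by omega, by omega, by omega⟩
    · have e1 : St.N.x = 0 := rfl
      have e2 : St.N.y = 1 := rfl
      rw [e1, e2]
      refine ⟨by omega, by omega, by omega⟩

theorem dwd_mem {n : ℕ} (b : Fin n → Bool) : ∀ s ∈ dwd b, s = St.E ∨ s = St.N := by
  intro s hs
  unfold dwd at hs
  rw [List.mem_ofFn] at hs
  obtain ⟨i, rfl⟩ := hs
  split_ifs
  · left; rfl
  · right; rfl

theorem dwd_saw {n : ℕ} (b : Fin n → Bool) : Saw (dwd b) := by
  intro m hm h1 h2
  obtain ⟨-, -, h3⟩ := dir_word m (fun s hs => dwd_mem b s (hm.subset hs))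
  rw [h1, h2] at h3
  have : m.length = 0 := by omega
  exact List.length_eq_zero_iff.1 this

theorem Lam_dir (h : ℝ × ℝ) {t : ℝ} (h1 : t ≤ h.1) (h2 : t ≤ h.2) :
    t + Real.log 2 ≤ Lam h + Real.log mu := by
  classical
  refine ge_of_tendsto (Y981.L2.Lam_tendsto h) ?_
  filter_upwards [eventually_ge_atTop 1] with n hn
  have hn0 : (0 : ℝ) < n := by exact_mod_cast hn
  rw [le_div_iff₀ hn0]
  have hZ : (2 : ℝ) ^ n * Real.exp (t * n) ≤ Y981.L2.Z h n := by
    have hc : ((Finset.univ : Finset (Fin n → Bool)).image dwd).card = 2 ^ n := by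
      rw [Finset.card_image_of_injective _ dwd_inj, Finset.card_univ, Fintype.card_fun,
        Fintype.card_bool, Fintype.card_fin]
    have hsub : (Finset.univ : Finset (Fin n → Bool)).image dwd ⊆ TH795.EP.fs Saw n := by
      intro w hw
      rw [Finset.mem_image] at hw
      obtain ⟨b, -, rfl⟩ := hw
      rw [TH795.EP.mem_fs]
      exact ⟨dwd_saw b, dwd_len b⟩
    unfold Y981.L2.Z
    refine le_trans ?_ (Finset.sum_le_sum_of_subset_of_nonneg hsub fun _ _ _ => (Real.exp_pos _).le)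
    have h3 := Finset.card_nsmul_le_sum ((Finset.univ : Finset (Fin n → Bool)).image dwd)
      (fun w => Real.exp (h.1 * dx w + h.2 * dy w)) (Real.exp (t * n)) (by
        intro w hw
        rw [Finset.mem_image] at hw
        obtain ⟨b, -, rfl⟩ := hw
        obtain ⟨g1, g2, g3⟩ := dir_word (dwd b) (dwd_mem b)
        rw [dwd_len] at g3
        apply Real.exp_le_exp.2
        have g1' : (0 : ℝ) ≤ dx (dwd b) := by exact_mod_cast g1
        have g2' : (0 : ℝ) ≤ dy (dwd b) := by exact_mod_cast g2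
        have g3' : (dx (dwd b) : ℝ) + dy (dwd b) = n := by exact_mod_cast g3
        rw [← g3']
        have e1 := mul_le_mul_of_nonneg_right h1 g1'
        have e2 := mul_le_mul_of_nonneg_right h2 g2'
        linarith)
    rw [hc, nsmul_eq_mul] at h3
    push_cast at h3
    exact h3
  have h4 := Real.log_le_log (by positivity) hZ
  rw [Real.log_mul (by positivity) (Real.exp_pos _).ne', Real.log_pow, Real.log_exp] at h4
  linarith

/-- the sets `Kc E` are not squares -/
theorem V_lt {E : ℝ} (hE : Real.log 2 ≤ E) : V E < (2 * (E + Real.log mu)) ^ 2 := by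
  obtain ⟨M, hM⟩ : ∃ M, M = E + Real.log mu := ⟨_, rfl⟩
  obtain ⟨l, hl⟩ : ∃ l, l = Real.log 2 := ⟨_, rfl⟩
  have hl0 : 0 < l := by rw [hl]; exact Real.log_pos (by norm_num)
  have hM0 : l ≤ M := by rw [hM, hl]; linarith [log_mu_nonneg]
  rw [← hM]
  have hsub : Kc E ⊆ (Icc (-M) M ×ˢ Icc (-M) M) \ (Ioc (M - l) M ×ˢ Ioc (M - l) M) := by
    intro h hh
    have h0 : Lam h ≤ E := hh
    obtain ⟨h1, h2⟩ := Y981.L2.abs_le_Lam h
    refine ⟨?_, ?_⟩
    · rw [mem_prod, mem_Icc, mem_Icc, ← abs_le, ← abs_le]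
      exact ⟨by linarith, by linarith⟩
    · rintro ⟨h3, h4⟩
      have h5 : M - l < min h.1 h.2 := lt_min h3.1 h4.1
      have h6 := Lam_dir h (min_le_left h.1 h.2) (min_le_right h.1 h.2)
      rw [← hl] at h6
      linarith
  have hv1 : volume.real (Icc (-M) M ×ˢ Icc (-M) M : Set (ℝ × ℝ)) = (2 * M) ^ 2 := by
    unfold Measure.real
    rw [Measure.volume_eq_prod, Measure.prod_prod, Real.volume_Icc,
      ← ENNReal.ofReal_mul (by linarith), ENNReal.toReal_ofReal (by nlinarith)]
    ring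
  have hv2 : volume.real (Ioc (M - l) M ×ˢ Ioc (M - l) M : Set (ℝ × ℝ)) = l ^ 2 := by
    unfold Measure.real
    rw [Measure.volume_eq_prod, Measure.prod_prod, Real.volume_Ioc,
      ← ENNReal.ofReal_mul (by linarith), ENNReal.toReal_ofReal (by nlinarith)]
    ring
  have hfin : volume (Icc (-M) M ×ˢ Icc (-M) M : Set (ℝ × ℝ)) ≠ ⊤ :=
    (isCompact_Icc.prod isCompact_Icc).measure_lt_top.ne
  have hcs : Ioc (M - l) M ×ˢ Ioc (M - l) M ⊆ Icc (-M) M ×ˢ Icc (-M) M := by
    rintro x ⟨⟨h1, h2⟩, h3, h4⟩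
    exact ⟨⟨by linarith, h2⟩, by linarith, h4⟩
  have h1 : V E ≤ volume.real ((Icc (-M) M ×ˢ Icc (-M) M) \ (Ioc (M - l) M ×ˢ Ioc (M - l) M) :
      Set (ℝ × ℝ)) :=
    measureReal_mono hsub (ne_top_of_le_ne_top hfin (measure_mono sdiff_subset))
  rw [measureReal_sdiff hcs (measurableSet_Ioc.prod measurableSet_Ioc) hfin, hv1, hv2] at h1
  nlinarith

theorem g_lt {E : ℝ} (hE : Real.log 2 ≤ E) : g E < 2 * (E + Real.log mu) := by
  have hl0 : 0 < Real.log 2 := Real.log_pos (by norm_num)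
  unfold g
  rw [Real.sqrt_lt' (by linarith [log_mu_nonneg])]
  exact V_lt hE

/-- **infinite slope at the end** -/
theorem steep (M : ℝ) : ∃ r : ℝ, 0 < r ∧ r < 1 / 2 ∧ M * (1 / 2 - r) < rho (1 / 2) - rho r := by
  by_contra hcon
  push Not at hcon
  rw [rho_half] at hcon
  obtain ⟨E, hE⟩ : ∃ E, E = Real.log 2 + |M| := ⟨_, rfl⟩
  have hl0 : 0 < Real.log 2 := Real.log_pos (by norm_num)
  have hM := le_abs_self M
  have hM0 := abs_nonneg M
  have hE0 : 0 < E := by rw [hE]; linarith
  have hmu := log_mu_nonneg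
  have h1 := g_lt (E := E) (by rw [hE]; linarith)
  have hdual := (dual hE0).2
  have h2 : 2 * (2 * (E + Real.log mu)) ≤ 2 * g E := by
    apply hdual
    rintro _ ⟨u, hu, rfl⟩
    have hs0 : 0 < √u := Real.sqrt_pos.2 hu.1
    have hs1 : √u ≤ 1 / 2 := (sqrt_mem ⟨hu.1.le, hu.2⟩).2
    simp only
    rw [le_div_iff₀ hs0, RR_eq hu.1.le]
    rcases hs1.lt_or_eq with h | h
    · have h3 := hcon √u hs0 h
      nlinarith
    · rw [h, rho_half]
      linarith
  linarith

/-! ### the maximisers -/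

/-- the maximisers of `s u - R(u)` -/
def Am (s : ℝ) : Set ℝ := Icc (0 : ℝ) (1 / 4) ∩ (fun u : ℝ => s * u - RR u) ⁻¹' {FE s}

theorem Am_compact (s : ℝ) : IsCompact (Am s) :=
  isCompact_Icc.of_isClosed_subset
    ((FE_cont s).preimage_isClosed_of_isClosed isClosed_Icc isClosed_singleton) inter_subset_left

theorem Am_nonempty (s : ℝ) : (Am s).Nonempty := by
  obtain ⟨u, hu, hmax⟩ := isCompact_Icc.exists_isMaxOn (⟨0, by norm_num⟩ :
      (Icc (0 : ℝ) (1 / 4)).Nonempty) (FE_cont s)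
  refine ⟨u, hu, ?_⟩
  apply le_antisymm
  · exact le_FE s hu
  · unfold FE
    refine csSup_le ⟨_, mem_image_of_mem _ hu⟩ ?_
    rintro _ ⟨v, hv, rfl⟩
    exact hmax hv

/-- the largest maximiser -/
noncomputable def am (s : ℝ) : ℝ := sSup (Am s)

theorem am_mem (s : ℝ) : am s ∈ Am s := (Am_compact s).sSup_mem (Am_nonempty s)

theorem le_am {s u : ℝ} (hu : u ∈ Am s) : u ≤ am s := le_csSup (Am_compact s).bddAbove hu

theorem am_eq (s : ℝ) : s * am s - RR (am s) = FE s := (am_mem s).2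

theorem Am_mono {s s' u u' : ℝ} (h : s < s') (hu : u ∈ Am s) (hu' : u' ∈ Am s') : u ≤ u' := by
  have h1 := le_FE s hu'.1
  have h2 := le_FE s' hu.1
  have h3 : s * u - RR u = FE s := hu.2
  have h4 : s' * u' - RR u' = FE s' := hu'.2
  have h5 : 0 ≤ (s' - s) * (u' - u) := by nlinarith
  by_contra hcon
  push Not at hcon
  nlinarith

theorem am_mono : Monotone am := by
  intro s s' h
  rcases h.eq_or_lt with rfl | h
  · exact le_rfl
  · exact Am_mono h (am_mem s) (am_mem s')

theorem am_nonneg (s : ℝ) : 0 ≤ am s := (am_mem s).1.1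

theorem am_lt (s : ℝ) : am s < 1 / 4 := by
  rcases (am_mem s).1.2.lt_or_eq with h | h
  · exact h
  exfalso
  obtain ⟨r, hr0, hr1, hr⟩ := steep |s|
  have h1 := am_eq s
  rw [h, RR_quarter, ← rho_half] at h1
  have hr2 : r ^ 2 ∈ Icc (0 : ℝ) (1 / 4) := ⟨by positivity, by nlinarith⟩
  have h2 := le_FE s hr2
  rw [← rho_eq hr0.le] at h2
  have h3 : s * (1 / 4 - r ^ 2) ≤ |s| * (1 / 2 - r) := by
    have e : s * (1 / 4 - r ^ 2) = s * ((1 / 2 - r) * (1 / 2 + r)) := by ring
    rw [e]
    have h4 : 0 ≤ (1 / 2 - r) * (1 / 2 + r) := by nlinarith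
    have h5 := mul_le_mul_of_nonneg_right (le_abs_self s) h4
    have h6 : (1 / 2 - r) * (1 / 2 + r) ≤ 1 / 2 - r := by nlinarith
    have h7 := mul_le_mul_of_nonneg_left h6 (abs_nonneg s)
    linarith
  linarith

/-- uniqueness of the maximiser at the points of continuity -/
theorem am_unique {s : ℝ} (hc : ContinuousAt am s) {u : ℝ} (hu : u ∈ Am s) : u = am s := by
  apply le_antisymm (le_am hu)
  have h1 : Tendsto am (𝓝[<] s) (𝓝 (am s)) := hc.tendsto.mono_left nhdsWithin_le_nhds
  refine le_of_tendsto h1 ?_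
  filter_upwards [self_mem_nhdsWithin] with s' hs'
  exact Am_mono hs' (am_mem s') hu

theorem FE_deriv {s : ℝ} (hc : ContinuousAt am s) : HasDerivAt FE (am s) s := by
  rw [hasDerivAt_iff_isLittleO, Asymptotics.isLittleO_iff]
  intro ε hε
  have h1 := (Metric.tendsto_nhds.1 hc.tendsto) ε hε
  filter_upwards [h1] with s' hs'
  rw [Real.dist_eq] at hs'
  have h2 := le_FE s' (am_mem s).1
  have h3 := le_FE s (am_mem s').1
  have h4 := am_eq s
  have h5 := am_eq s'
  rw [smul_eq_mul, Real.norm_eq_abs, Real.norm_eq_abs]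
  have h6 : 0 ≤ FE s' - FE s - (s' - s) * am s := by linarith
  have h7 : FE s' - FE s - (s' - s) * am s ≤ (s' - s) * (am s' - am s) := by linarith
  rw [abs_of_nonneg h6]
  refine h7.trans ((le_abs_self _).trans ?_)
  rw [abs_mul, mul_comm]
  exact mul_le_mul_of_nonneg_right hs'.le (abs_nonneg _)

theorem am_nonpos {s : ℝ} (hs : s ≤ 0) : am s = 0 := by
  apply le_antisymm _ (am_nonneg s)
  by_contra hcon
  push Not at hcon
  have h1 := am_eq s
  have h2 := le_FE s (u := 0) (by norm_num)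
  rw [RR_zero] at h2
  have h3 : 0 < RR (am s) := by
    rw [← RR_zero]
    exact RR_strict (by norm_num) (am_mem s).1 hcon
  nlinarith

theorem exists_am_pos : ∃ s, 0 < am s := by
  by_contra hcon
  push Not at hcon
  obtain ⟨s, hs⟩ : ∃ s, s = 8 * (2 * Real.log mu + 1) := ⟨_, rfl⟩
  have h0 : am s = 0 := le_antisymm (hcon s) (am_nonneg s)
  have h1 := am_eq s
  rw [h0, RR_zero] at h1
  have h2 := le_FE s (u := 1 / 8) (by norm_num)
  have h3 : RR (1 / 8) ≤ RR (1 / 4) := (RR_strict.le_iff_le (by norm_num) (by norm_num)).2 (by norm_num)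
  rw [RR_quarter] at h3
  linarith

/-- the inflation threshold -/
noncomputable def sc : ℝ := sInf {s | 0 < am s}

theorem sc_bdd : BddBelow {s | 0 < am s} := by
  refine ⟨0, ?_⟩
  intro s hs
  by_contra hcon
  push Not at hcon
  have h1 : 0 < am s := hs
  rw [am_nonpos hcon.le] at h1
  exact lt_irrefl _ h1

theorem sc_nonneg : 0 ≤ sc := by
  apply le_csInf exists_am_pos
  intro s hs
  by_contra hcon
  push Not at hcon
  have h1 : 0 < am s := hs
  rw [am_nonpos hcon.le] at h1
  exact lt_irrefl _ h1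

theorem am_lt_sc {s : ℝ} (hs : s < sc) : am s = 0 := by
  apply le_antisymm _ (am_nonneg s)
  by_contra hcon
  push Not at hcon
  exact absurd (csInf_le sc_bdd hcon) (not_le.2 hs)

theorem am_gt_sc {s : ℝ} (hs : sc < s) : 0 < am s := by
  obtain ⟨s', hs', h⟩ := exists_lt_of_csInf_lt exists_am_pos hs
  have h1 : 0 < am s' := hs'
  exact h1.trans_le (am_mono h.le)

theorem FE_lt_sc {s : ℝ} (hs : s < sc) : FE s = 0 := by
  have h1 := am_eq s
  rw [am_lt_sc hs, RR_zero] at h1
  linarith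

theorem FE_sc : FE sc = 0 := by
  apply le_antisymm
  · unfold FE
    refine csSup_le ⟨_, 0, by norm_num, rfl⟩ ?_
    rintro _ ⟨u, hu, rfl⟩
    have h1 : Tendsto (fun s : ℝ => s * u - RR u) (𝓝[<] sc) (𝓝 (sc * u - RR u)) :=
      (Continuous.tendsto (by fun_prop) _).mono_left nhdsWithin_le_nhds
    refine le_of_tendsto h1 ?_
    filter_upwards [self_mem_nhdsWithin] with s hs
    rw [← FE_lt_sc hs]
    exact le_FE s hu
  · have h2 := le_FE sc (u := 0) (by norm_num)
    rw [RR_zero] at h2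
    linarith

theorem FE_nonneg (s : ℝ) : 0 ≤ FE s := by
  have h2 := le_FE s (u := 0) (by norm_num)
  rw [RR_zero] at h2
  linarith

theorem FE_gt_sc {s : ℝ} (hs : sc < s) : 0 < FE s := by
  obtain ⟨s', h1, h2⟩ := exists_between hs
  have h3 := am_gt_sc h1
  have h4 := le_FE s (am_mem s').1
  have h5 := am_eq s'
  have h6 := FE_nonneg s'
  nlinarith

end Pool.Agent.H26.WF
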