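import Pool.Agent.H26.WS.Hull
import Pool.Graph.R_pool_sql_team_seeded_47a924f7.T6.H44.PG.Fin

/-!
The widths of the convex hull of a loop and the edges of the polygon of the cut points.
-/

set_option autoImplicit false

open MeasureTheory Set
open scoped ENNReal

namespace Pool.Agent.H26.WS

open Pool.Agent.T6.H44 Pool.Agent.T6.H44.PG
open Pool.Agent.T6.H44.AR (det)
open Pool.Agent.TH795.EP Pool.Agent.TH795.EP2 H981

theorem det_add' (v x y : ℝ × ℝ) : det v (x + y) = det v x + det v y := by
  simp only [det, Prod.fst_add, Prod.snd_add]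
  ring

theorem det_zero' (v : ℝ × ℝ) : det v 0 = 0 := by simp [det]

theorem abs_sum_le (v : ℝ × ℝ) (L : List (ℝ × ℝ)) :
    |det v L.sum| ≤ (L.map (fun l => |det v l|)).sum := by
  induction L with
  | nil => simp [det]
  | cons l L ih =>
    rw [List.sum_cons, List.map_cons, List.sum_cons, det_add']
    exact (abs_add_le _ _).trans (add_le_add le_rfl ih)

theorem wid_aux (v : ℝ × ℝ) {L : List (ℝ × ℝ)} (h0 : L.sum = 0) {i j : ℕ} (hij : i ≤ j) :
    2 * |det v ((L.take j).sum - (L.take i).sum)| ≤ (L.map (fun l => |det v l|)).sum := by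
  obtain ⟨A, hA⟩ : ∃ A, A = L.take i := ⟨_, rfl⟩
  obtain ⟨B, hB⟩ : ∃ B, B = (L.take j).drop i := ⟨_, rfl⟩
  obtain ⟨C, hC⟩ : ∃ C, C = L.drop j := ⟨_, rfl⟩
  have h1 : L.take j = A ++ B := by
    rw [hA, hB]
    conv_lhs => rw [← List.take_append_drop i (L.take j)]
    rw [List.take_take, min_eq_left hij]
  have h2 : L = A ++ B ++ C := by rw [← h1, hC, List.take_append_drop]
  have h3 : A.sum + B.sum + C.sum = 0 := by rw [← h0, h2, List.sum_append, List.sum_append]
  have e : (L.take j).sum - (L.take i).sum = B.sum := by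
    rw [h1, ← hA, List.sum_append]
    abel
  rw [e]
  have g1 := abs_sum_le v A
  have g2 := abs_sum_le v B
  have g3 := abs_sum_le v C
  have g4 : (L.map (fun l => |det v l|)).sum = (A.map (fun l => |det v l|)).sum +
      (B.map (fun l => |det v l|)).sum + (C.map (fun l => |det v l|)).sum := by
    conv_lhs => rw [h2]
    rw [List.map_append, List.map_append, List.sum_append, List.sum_append]
  have g5 : det v A.sum + det v B.sum + det v C.sum = 0 := by
    rw [← det_add', ← det_add', h3, det_zero']
  have g6 : |det v B.sum| ≤ |det v A.sum| + |det v C.sum| := by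
    have : det v B.sum = -(det v A.sum + det v C.sum) := by linarith
    rw [this, abs_neg]
    exact abs_add_le _ _
  rw [g4]
  linarith

theorem wid_list (v : ℝ × ℝ) {L : List (ℝ × ℝ)} (h0 : L.sum = 0) (i j : ℕ) :
    2 * det v ((L.take i).sum - (L.take j).sum) ≤ (L.map (fun l => |det v l|)).sum := by
  rcases le_total i j with h | h
  · have h1 := wid_aux v h0 h
    have h2 : det v ((L.take i).sum - (L.take j).sum) =
        -det v ((L.take j).sum - (L.take i).sum) := by
      simp only [det, Prod.fst_sub, Prod.snd_sub]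
      ring
    have h3 := neg_abs_le (det v ((L.take j).sum - (L.take i).sum))
    rw [h2]
    linarith
  · have h1 := wid_aux v h0 h
    have h3 := le_abs_self (det v ((L.take i).sum - (L.take j).sum))
    linarith

/-- every point of the word is near a cut point -/
theorem near_cut {s : ℕ} (ms : List ℕ) (hms : ∀ m ∈ ms, m ≤ s) : ∀ w : List St,
    w.length = ms.sum → ∀ i ≤ w.length, ∃ j ≤ ms.length,
      |(path w i).1 - (((cut ms w).map Prod.snd).take j).sum.1| +
      |(path w i).2 - (((cut ms w).map Prod.snd).take j).sum.2| ≤ (s : ℤ) := by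
  induction ms with
  | nil =>
    intro w hw i hi
    refine ⟨0, le_rfl, ?_⟩
    rw [hw] at hi
    have h0 : i = 0 := by simpa using hi
    subst h0
    simp [path]
  | cons m ms ih =>
    intro w hw i hi
    rw [List.sum_cons] at hw
    have hm : m ≤ s := hms m (by simp)
    rcases le_total i m with h | h
    · refine ⟨0, Nat.zero_le _, ?_⟩
      have h1 := abs_add_abs_le (w.take i)
      have h2 : (w.take i).length ≤ i := by rw [List.length_take]; exact min_le_left _ _
      rw [List.take_zero, List.sum_nil]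
      simp only [Prod.fst_zero, Prod.snd_zero, sub_zero, path]
      have : ((w.take i).length : ℤ) ≤ s := by exact_mod_cast (h2.trans (h.trans hm))
      linarith
    · obtain ⟨j, hj, h1⟩ := ih (fun m' hm' => hms m' (by simp [hm'])) (w.drop m)
        (by rw [List.length_drop]; omega) (i - m) (by rw [List.length_drop]; omega)
      refine ⟨j + 1, by simpa using hj, ?_⟩
      rw [cut, List.map_cons, List.take_succ_cons, List.sum_cons]
      have h2 : path w i = (dx (w.take m) + (path (w.drop m) (i - m)).1,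
          dy (w.take m) + (path (w.drop m) (i - m)).2) := by
        unfold path
        have e : w.take i = w.take m ++ (w.drop m).take (i - m) := by
          conv_lhs => rw [← List.take_append_drop m (w.take i)]
          rw [List.take_take, min_eq_left h, List.drop_take]
        rw [e, dx_append, dy_append]
      rw [h2]
      simp only [Prod.fst_add, Prod.snd_add, add_sub_add_left_eq_sub]
      exact h1

theorem scl_take (n : ℕ) (F : List (ℕ × (ℤ × ℤ))) (j : ℕ) :
    (((scl n F).map Prod.snd).take j).sum = ((((F.map Prod.snd).take j).sum.1 : ℝ) / n,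
      (((F.map Prod.snd).take j).sum.2 : ℝ) / n) := by
  have h := scl_snd n (F.take j)
  have e : scl n (F.take j) = (scl n F).take j := by
    unfold scl
    rw [List.map_take]
  rw [e, List.map_take, List.map_take] at h
  exact h

theorem abs_det_le' (v w : ℝ × ℝ) : |det v w| ≤ ‖v‖ * (|w.1| + |w.2|) := by
  have h1 : |v.1| ≤ ‖v‖ := norm_fst_le v
  have h2 : |v.2| ≤ ‖v‖ := norm_snd_le v
  unfold det
  refine (abs_sub _ _).trans ?_
  rw [abs_mul, abs_mul]
  have h5 := mul_le_mul_of_nonneg_right h1 (abs_nonneg w.2)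
  have h6 := mul_le_mul_of_nonneg_right h2 (abs_nonneg w.1)
  linarith

/-- **the widths of the hull** -/
theorem hull_width {n s : ℕ} (hn : 0 < n) {ms : List ℕ} (hms : ∀ m ∈ ms, m ≤ s) {V : List St}
    (hV : V.length = ms.sum) (hV2 : V.length = 2 * n - 1) (v : ℝ × ℝ) :
    ∀ x ∈ convexHull ℝ (pts (n : ℝ) (fun i : ZMod (2 * n) => path V i.val)),
    ∀ x' ∈ convexHull ℝ (pts (n : ℝ) (fun i : ZMod (2 * n) => path V i.val)),
      2 * det v (x - x') ≤ (((scl n (cut ms V ++ [(1, (-dx V, -dy V))])).map Prod.snd).map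
        (fun l => |det v l|)).sum + 4 * (s / n) * ‖v‖ := by
  have hn0 : (0 : ℝ) < n := by exact_mod_cast hn
  have : NeZero (2 * n) := ⟨by omega⟩
  obtain ⟨F, hF⟩ : ∃ F : List (ℕ × (ℤ × ℤ)), F = cut ms V ++ [(1, (-dx V, -dy V))] := ⟨_, rfl⟩
  rw [← hF]
  obtain ⟨M, hM⟩ : ∃ M, M = (((scl n F).map Prod.snd).map (fun l => |det v l|)).sum +
    4 * (s / n) * ‖v‖ := ⟨_, rfl⟩
  rw [← hM]
  have hL0 : ((scl n F).map Prod.snd).sum = 0 := by
    have h3 : (F.map Prod.snd).sum = 0 := by
      rw [hF, List.map_append, List.sum_append, cut_sum ms V hV]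
      simp
    rw [scl_snd, h3]
    simp
  have hlen : (cut ms V).length = ms.length := by
    rw [← List.length_map (as := cut ms V) Prod.fst, cut_fst]
  -- near points
  have hnear : ∀ i : ZMod (2 * n), ∃ j,
      |det v ((((path V i.val).1 : ℝ) / n, ((path V i.val).2 : ℝ) / n) -
        (((scl n F).map Prod.snd).take j).sum)| ≤ ‖v‖ * (s / n) := by
    intro i
    obtain ⟨j, hj, h1⟩ := near_cut ms hms V hV i.val (by
      have := ZMod.val_lt i
      omega)
    refine ⟨j, (abs_det_le' _ _).trans (mul_le_mul_of_nonneg_left ?_ (norm_nonneg _))⟩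
    rw [scl_take]
    have e : (F.map Prod.snd).take j = ((cut ms V).map Prod.snd).take j := by
      rw [hF, List.map_append, List.take_append_of_le_length]
      rw [List.length_map, hlen]
      exact hj
    rw [e]
    simp only [Prod.fst_sub, Prod.snd_sub]
    rw [← sub_div, ← sub_div, abs_div, abs_div, abs_of_pos hn0, ← add_div]
    apply div_le_div_of_nonneg_right _ hn0.le
    exact_mod_cast h1
  have hpp : ∀ x ∈ pts (n : ℝ) (fun i : ZMod (2 * n) => path V i.val),
      ∀ x' ∈ pts (n : ℝ) (fun i : ZMod (2 * n) => path V i.val), 2 * det v (x - x') ≤ M := by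
    rintro _ ⟨i, rfl⟩ _ ⟨i', rfl⟩
    obtain ⟨j, h1⟩ := hnear i
    obtain ⟨j', h1'⟩ := hnear i'
    have h2 := wid_list v hL0 j j'
    have h3 := abs_le.1 h1
    have h4 := abs_le.1 h1'
    simp only [det, Prod.fst_sub, Prod.snd_sub] at h2 h3 h4 ⊢
    rw [hM]
    simp only [det]
    linarith [h3.1, h3.2, h4.1, h4.2]
  have hcv : ∀ c : ℝ × ℝ, ∀ b : ℝ, Convex ℝ {x : ℝ × ℝ | 2 * det v (x - c) ≤ b} := by
    intro c b x hx y hy p q hp hq hpq
    simp only [mem_setOf_eq, det, Prod.fst_sub, Prod.snd_sub, Prod.fst_add, Prod.snd_add,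
      Prod.smul_fst, Prod.smul_snd, smul_eq_mul] at hx hy ⊢
    have h1 := mul_le_mul_of_nonneg_left hx hp
    have h2 := mul_le_mul_of_nonneg_left hy hq
    have h3 : p = 1 - q := by linarith
    subst h3
    linarith
  have hcv' : ∀ c : ℝ × ℝ, ∀ b : ℝ, Convex ℝ {x : ℝ × ℝ | 2 * det v (c - x) ≤ b} := by
    intro c b x hx y hy p q hp hq hpq
    simp only [mem_setOf_eq, det, Prod.fst_sub, Prod.snd_sub, Prod.fst_add, Prod.snd_add,
      Prod.smul_fst, Prod.smul_snd, smul_eq_mul] at hx hy ⊢
    have h1 := mul_le_mul_of_nonneg_left hx hp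
    have h2 := mul_le_mul_of_nonneg_left hy hq
    have h3 : p = 1 - q := by linarith
    subst h3
    linarith
  have hph : ∀ x' ∈ pts (n : ℝ) (fun i : ZMod (2 * n) => path V i.val),
      ∀ x ∈ convexHull ℝ (pts (n : ℝ) (fun i : ZMod (2 * n) => path V i.val)),
      2 * det v (x - x') ≤ M := by
    intro x' hx' x hx
    exact convexHull_min (fun y hy => hpp y hy x' hx') (hcv x' M) hx
  intro x hx x' hx'
  exact convexHull_min (fun y hy => hph y hy x hx) (hcv' x M) hx'

end Pool.Agent.H26.WS
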